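import Mathlib

/-!
Elementary facts used for the amalgamation problem of real zero polynomials.
-/

namespace H838R3.Am

open MvPolynomial
open scoped ComplexOrder

/-- A real symmetric `3 × 3` matrix `M`: if `det (1 + l M) = 0` with `l` complex then `l` is real. -/
theorem im_eq_zero_of_det (M : Matrix (Fin 3) (Fin 3) ℂ) (hM : M.IsHermitian) (l : ℂ)
    (h : (1 + l • M).det = 0) : l.im = 0 := by
  obtain ⟨v, hv, hv0⟩ := Matrix.exists_mulVec_eq_zero_iff.mpr h
  have h1 : v + l • (M.mulVec v) = 0 := by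
    have := hv0
    rw [Matrix.add_mulVec, Matrix.one_mulVec, Matrix.smul_mulVec] at this
    exact this
  have h2 : star v ⬝ᵥ v + l * (star v ⬝ᵥ (M.mulVec v)) = 0 := by
    have := congrArg (fun w => star v ⬝ᵥ w) h1
    simpa [dotProduct_add, dotProduct_smul] using this
  have h3 : (star v ⬝ᵥ (M.mulVec v)).im = 0 := hM.im_star_dotProduct_mulVec_self v
  have h4 : (star v ⬝ᵥ v).im = 0 := by
    have := (Matrix.isHermitian_one (n := Fin 3) (α := ℂ)).im_star_dotProduct_mulVec_self v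
    simpa using this
  have h5 : star v ⬝ᵥ v ≠ 0 := by
    intro h0
    exact hv (dotProduct_star_self_eq_zero.mp (by simpa [dotProduct_comm] using h0))
  by_contra hl
  have h6 := congrArg Complex.im h2
  simp only [Complex.add_im, Complex.mul_im, h3, h4, Complex.zero_im, mul_zero, zero_add] at h6
  have h7 : (star v ⬝ᵥ (M.mulVec v)).re = 0 := by
    rcases mul_eq_zero.mp h6 with h | h
    · exact absurd h hl
    · exact h
  have h8 : star v ⬝ᵥ (M.mulVec v) = 0 := Complex.ext h7 h3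
  rw [h8, mul_zero, add_zero] at h2
  exact h5 h2

/-- A monic real cubic all of whose complex roots are real satisfies `B1 ^ 2 - 2 B2 B0 ≥ 0`. -/
theorem cubic_ineq (B2 B1 B0 : ℝ)
    (h : ∀ t : ℂ, t ^ 3 + B2 * t ^ 2 + B1 * t + B0 = 0 → t.im = 0) :
    0 ≤ B1 ^ 2 - 2 * B2 * B0 := by
  -- first root
  have hdeg : (Polynomial.X ^ 3 + Polynomial.C (B2 : ℂ) * Polynomial.X ^ 2
      + Polynomial.C (B1 : ℂ) * Polynomial.X + Polynomial.C (B0 : ℂ)).degree ≠ 0 := by
    have : (Polynomial.X ^ 3 + Polynomial.C (B2 : ℂ) * Polynomial.X ^ 2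
      + Polynomial.C (B1 : ℂ) * Polynomial.X + Polynomial.C (B0 : ℂ)).degree = 3 := by
      compute_degree!
    rw [this]; decide
  obtain ⟨z, hz⟩ := IsAlgClosed.exists_root _ hdeg
  have hz' : z ^ 3 + B2 * z ^ 2 + B1 * z + B0 = 0 := by
    simpa [Polynomial.IsRoot] using hz
  have hzim := h z hz'
  obtain ⟨r1, rfl⟩ : ∃ r : ℝ, z = (r : ℂ) := ⟨z.re, Complex.ext (by simp) (by simp [hzim])⟩
  have hr1 : r1 ^ 3 + B2 * r1 ^ 2 + B1 * r1 + B0 = 0 := by exact_mod_cast hz'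
  -- the quadratic factor
  obtain ⟨b, hb⟩ : ∃ b : ℝ, b = B2 + r1 := ⟨_, rfl⟩
  obtain ⟨c, hc⟩ : ∃ c : ℝ, c = B1 + b * r1 := ⟨_, rfl⟩
  have hB0 : B0 = - r1 * c := by
    rw [hc, hb]; linear_combination hr1
  have hB1 : B1 = c - b * r1 := by rw [hc]; ring
  have hB2 : B2 = b - r1 := by rw [hb]; ring
  have hfac : ∀ t : ℂ, t ^ 3 + B2 * t ^ 2 + B1 * t + B0 = (t - r1) * (t ^ 2 + b * t + c) := by
    intro t
    rw [hB0, hB1, hB2]; push_cast; ring
  have hdisc : 0 ≤ b ^ 2 - 4 * c := by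
    by_contra hneg
    push Not at hneg
    obtain ⟨w, hw⟩ : ∃ w : ℝ, w = Real.sqrt (4 * c - b ^ 2) := ⟨_, rfl⟩
    have hw2 : w ^ 2 = 4 * c - b ^ 2 := by rw [hw]; exact Real.sq_sqrt (by linarith)
    have hwpos : 0 < w := by rw [hw]; exact Real.sqrt_pos.mpr (by linarith)
    have hroot : ((⟨-b / 2, w / 2⟩ : ℂ)) ^ 2 + b * (⟨-b / 2, w / 2⟩ : ℂ) + c = 0 := by
      apply Complex.ext
      · simp [pow_two]; nlinarith
      · simp [pow_two]; ring
    have := h ⟨-b / 2, w / 2⟩ (by rw [hfac, hroot, mul_zero])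
    simp at this
    linarith
  rw [hB0, hB1, hB2]
  -- e2^2 - 2 e1 e3 = c^2 + r1^2 (b^2 - 2c)
  have h2 : 0 ≤ b ^ 2 - 2 * c := by nlinarith [sq_nonneg b]
  nlinarith [mul_nonneg (sq_nonneg r1) h2, sq_nonneg c]

/-- The linear coefficient of a polynomial inequality near `0` vanishes. -/
theorem lin_coeff_zero (A B C D : ℝ)
    (h : ∀ z : ℝ, 0 ≤ A * z + B * z ^ 2 + C * z ^ 3 + D * z ^ 4) : A = 0 := by
  by_contra hA
  set M := |A| + |B| + |C| + |D| + 1 with hM
  have hM0 : 0 < M := by positivity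
  have hA2 : 0 < A ^ 2 := by positivity
  have hz := h (-A / M)
  set z := -A / M with hzdef
  have hz1 : |z| ≤ 1 := by
    rw [hzdef, abs_div, abs_neg, abs_of_pos hM0, div_le_one hM0, hM]
    linarith [abs_nonneg B, abs_nonneg C, abs_nonneg D]
  have hz2 : z ^ 2 = A ^ 2 / M ^ 2 := by rw [hzdef, div_pow, neg_sq]
  have hAz : A * z = - (A ^ 2 / M ^ 2) * M := by
    rw [hzdef]; field_simp
  have hsq : 0 < z ^ 2 := by rw [hz2]; positivity
  have hC : C * z ^ 3 ≤ |C| * z ^ 2 := by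
    have : C * z ^ 3 = (C * z) * z ^ 2 := by ring
    rw [this]
    apply mul_le_mul_of_nonneg_right _ hsq.le
    calc C * z ≤ |C * z| := le_abs_self _
      _ = |C| * |z| := abs_mul _ _
      _ ≤ |C| * 1 := mul_le_mul_of_nonneg_left hz1 (abs_nonneg _)
      _ = |C| := mul_one _
  have hD : D * z ^ 4 ≤ |D| * z ^ 2 := by
    have : D * z ^ 4 = (D * z ^ 2) * z ^ 2 := by ring
    rw [this]
    apply mul_le_mul_of_nonneg_right _ hsq.le
    have hz21 : z ^ 2 ≤ 1 := by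
      have := abs_le.mp hz1
      nlinarith
    calc D * z ^ 2 ≤ |D * z ^ 2| := le_abs_self _
      _ = |D| * z ^ 2 := by rw [abs_mul, abs_of_pos hsq]
      _ ≤ |D| * 1 := mul_le_mul_of_nonneg_left hz21 (abs_nonneg _)
      _ = |D| := mul_one _
  have hB : B * z ^ 2 ≤ |B| * z ^ 2 := mul_le_mul_of_nonneg_right (le_abs_self _) hsq.le
  have : A * z = - z ^ 2 * M := by rw [hAz, hz2]
  nlinarith [abs_nonneg A]

end H838R3.Am
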