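import Mathlib

/-!
Definitions for the amalgamation problem of real zero polynomials with two shared variables.
-/

namespace H838R3.Am

open MvPolynomial

/-- A polynomial `f` with real coefficients is a real zero polynomial if `f (l a) = 0` with `a` a
real point and `l` a complex number implies that `l` is real. -/
def RealZero {σ : Type} (f : MvPolynomial σ ℝ) : Prop :=
  ∀ (a : σ → ℝ) (l : ℂ), aeval (fun i => l * (a i : ℂ)) f = 0 → l.im = 0

/-- `p(x, 0)` for `p ∈ ℝ[x, y]`, where `x = (x₁, x₂)` and `y` is an `m`-tuple. -/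
noncomputable def shared {m : ℕ} (p : MvPolynomial (Fin 2 ⊕ Fin m) ℝ) : MvPolynomial (Fin 2) ℝ :=
  aeval (Sum.elim (fun i => X i) (fun _ => 0)) p

/-- `r(x, y, 0)` for `r ∈ ℝ[x, y, z]`. -/
noncomputable def setZ {m n : ℕ} (r : MvPolynomial (Fin 2 ⊕ (Fin m ⊕ Fin n)) ℝ) :
    MvPolynomial (Fin 2 ⊕ Fin m) ℝ :=
  aeval (Sum.elim (fun i => X (Sum.inl i)) (Sum.elim (fun j => X (Sum.inr j)) (fun _ => 0))) r

/-- `r(x, 0, z)` for `r ∈ ℝ[x, y, z]`. -/
noncomputable def setY {m n : ℕ} (r : MvPolynomial (Fin 2 ⊕ (Fin m ⊕ Fin n)) ℝ) :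
    MvPolynomial (Fin 2 ⊕ Fin n) ℝ :=
  aeval (Sum.elim (fun i => X (Sum.inl i)) (Sum.elim (fun _ => 0) (fun j => X (Sum.inr j)))) r

/-- The statement of the question (Q1). -/
def DegreePreservingAmalgamation : Prop :=
  ∀ (d m n : ℕ) (p : MvPolynomial (Fin 2 ⊕ Fin m) ℝ) (q : MvPolynomial (Fin 2 ⊕ Fin n) ℝ),
    RealZero p → RealZero q → p.totalDegree ≤ d → q.totalDegree ≤ d → shared p = shared q →
    ∃ r : MvPolynomial (Fin 2 ⊕ (Fin m ⊕ Fin n)) ℝ,
      RealZero r ∧ r.totalDegree ≤ d ∧ setZ r = p ∧ setY r = q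

end H838R3.Am
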