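import Pool.Agent.H838R3.AmStruct
import Pool.Agent.H838R3.AmBasic

/-!
The explicit pair of cubic real zero polynomials without a degree preserving amalgam.
-/

namespace H838R3.Am

open MvPolynomial

/-- The common restriction
`(1 - 2 x₂) (1 - x₁²) - 11 x₂² + 12 x₂³`. -/
noncomputable def P0 : MvPolynomial (Fin 2) ℝ :=
  (1 - C 2 * X 1) * (1 - X 0 ^ 2) - C 11 * X 1 ^ 2 + C 12 * X 1 ^ 3

/-- `p = P0 + y (1 - x₁² - x₂²)`. -/
noncomputable def P : MvPolynomial (Fin 2 ⊕ Fin 1) ℝ :=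
  (1 - C 2 * X (Sum.inl 1)) * (1 - X (Sum.inl 0) ^ 2) - C 11 * X (Sum.inl 1) ^ 2
    + C 12 * X (Sum.inl 1) ^ 3
    + X (Sum.inr 0) * (1 - X (Sum.inl 0) ^ 2 - X (Sum.inl 1) ^ 2)

/-- `q = P0 + z (1 - x₁² - 9 x₂²)`. -/
noncomputable def Q : MvPolynomial (Fin 2 ⊕ Fin 1) ℝ :=
  (1 - C 2 * X (Sum.inl 1)) * (1 - X (Sum.inl 0) ^ 2) - C 11 * X (Sum.inl 1) ^ 2
    + C 12 * X (Sum.inl 1) ^ 3
    + X (Sum.inr 0) * (1 - X (Sum.inl 0) ^ 2 - C 9 * X (Sum.inl 1) ^ 2)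

theorem shared_P : shared P = P0 := by
  simp [shared, P, P0]

theorem shared_Q : shared Q = P0 := by
  simp [shared, Q, P0]

theorem sqrt5 : ((Real.sqrt 5 : ℝ) : ℂ) ^ 2 = 5 := by
  rw [← Complex.ofReal_pow, Real.sq_sqrt (by norm_num)]; norm_num

/-- The pencil for `p`. -/
noncomputable def MP (x1 x2 y : ℝ) : Matrix (Fin 3) (Fin 3) ℂ :=
  !![((-2 * x2 + y : ℝ) : ℂ), ((Real.sqrt 5 * x2 : ℝ) : ℂ), ((Real.sqrt 5 * x2 : ℝ) : ℂ);
     ((Real.sqrt 5 * x2 : ℝ) : ℂ), ((x1 : ℝ) : ℂ), ((x2 : ℝ) : ℂ);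
     ((Real.sqrt 5 * x2 : ℝ) : ℂ), ((x2 : ℝ) : ℂ), ((-x1 : ℝ) : ℂ)]

/-- The pencil for `q`. -/
noncomputable def MQ (x1 x2 y : ℝ) : Matrix (Fin 3) (Fin 3) ℂ :=
  !![((-2 * x2 + y : ℝ) : ℂ), ((x2 : ℝ) : ℂ), ((x2 : ℝ) : ℂ);
     ((x2 : ℝ) : ℂ), ((x1 : ℝ) : ℂ), ((-3 * x2 : ℝ) : ℂ);
     ((x2 : ℝ) : ℂ), ((-3 * x2 : ℝ) : ℂ), ((-x1 : ℝ) : ℂ)]

theorem MP_herm (x1 x2 y : ℝ) : (MP x1 x2 y).IsHermitian := by
  unfold Matrix.IsHermitian
  ext i j
  fin_cases i <;> fin_cases j <;> simp [MP, Matrix.conjTranspose_apply]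

theorem MQ_herm (x1 x2 y : ℝ) : (MQ x1 x2 y).IsHermitian := by
  unfold Matrix.IsHermitian
  ext i j
  fin_cases i <;> fin_cases j <;> simp [MQ, Matrix.conjTranspose_apply]

theorem realZero_P : RealZero P := by
  intro a l h
  apply im_eq_zero_of_det (MP (a (Sum.inl 0)) (a (Sum.inl 1)) (a (Sum.inr 0))) (MP_herm _ _ _) l
  rw [← h, Matrix.det_fin_three]
  simp only [MP, P, Matrix.add_apply, Matrix.smul_apply, Matrix.one_apply, smul_eq_mul,
    map_add, map_sub, map_mul, map_pow, aeval_X, map_one, aeval_C]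
  simp
  have h5 := sqrt5
  ring_nf
  simp only [h5]
  ring

theorem realZero_Q : RealZero Q := by
  intro a l h
  apply im_eq_zero_of_det (MQ (a (Sum.inl 0)) (a (Sum.inl 1)) (a (Sum.inr 0))) (MQ_herm _ _ _) l
  rw [← h, Matrix.det_fin_three]
  simp only [MQ, Q, Matrix.add_apply, Matrix.smul_apply, Matrix.one_apply, smul_eq_mul,
    map_add, map_sub, map_mul, map_pow, aeval_X, map_one, aeval_C]
  simp
  ring


theorem td_mul {σ : Type} {f g : MvPolynomial σ ℝ} {a b c : ℕ} (hf : f.totalDegree ≤ a)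
    (hg : g.totalDegree ≤ b) (hc : a + b ≤ c) : (f * g).totalDegree ≤ c :=
  le_trans (totalDegree_mul _ _) (le_trans (Nat.add_le_add hf hg) hc)

theorem td_add {σ : Type} {f g : MvPolynomial σ ℝ} {c : ℕ} (hf : f.totalDegree ≤ c)
    (hg : g.totalDegree ≤ c) : (f + g).totalDegree ≤ c :=
  le_trans (totalDegree_add _ _) (max_le hf hg)

theorem td_sub {σ : Type} {f g : MvPolynomial σ ℝ} {c : ℕ} (hf : f.totalDegree ≤ c)
    (hg : g.totalDegree ≤ c) : (f - g).totalDegree ≤ c :=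
  le_trans (totalDegree_sub _ _) (max_le hf hg)

theorem td_one {σ : Type} {c : ℕ} : (1 : MvPolynomial σ ℝ).totalDegree ≤ c := by
  rw [totalDegree_one]; exact Nat.zero_le _

theorem td_C {σ : Type} {c : ℕ} (a : ℝ) : (C a : MvPolynomial σ ℝ).totalDegree ≤ c := by
  rw [totalDegree_C]; exact Nat.zero_le _

theorem td_Xpow {σ : Type} {c : ℕ} (i : σ) (k : ℕ) (h : k ≤ c) :
    (X i ^ k : MvPolynomial σ ℝ).totalDegree ≤ c := by
  rw [totalDegree_X_pow]; exact h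

theorem td_X {σ : Type} {c : ℕ} (i : σ) (h : 1 ≤ c) :
    (X i : MvPolynomial σ ℝ).totalDegree ≤ c := by
  rw [totalDegree_X]; exact h

theorem td_P0 : P0.totalDegree ≤ 3 := by
  unfold P0
  refine td_add (td_sub (td_mul (a := 1) (b := 2) (td_sub td_one (td_mul (a := 0) (b := 1)
    (td_C _) (td_X _ le_rfl) le_rfl)) (td_sub td_one (td_Xpow _ _ le_rfl)) le_rfl) ?_) ?_
  · exact td_mul (a := 0) (b := 2) (td_C _) (td_Xpow _ _ le_rfl) (by norm_num)
  · exact td_mul (a := 0) (b := 3) (td_C _) (td_Xpow _ _ le_rfl) (by norm_num)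

theorem td_P : P.totalDegree ≤ 3 := by
  unfold P
  refine td_add (td_add (td_sub (td_mul (a := 1) (b := 2) (td_sub td_one (td_mul (a := 0) (b := 1)
    (td_C _) (td_X _ le_rfl) le_rfl)) (td_sub td_one (td_Xpow _ _ le_rfl)) le_rfl) ?_) ?_) ?_
  · exact td_mul (a := 0) (b := 2) (td_C _) (td_Xpow _ _ le_rfl) (by norm_num)
  · exact td_mul (a := 0) (b := 3) (td_C _) (td_Xpow _ _ le_rfl) (by norm_num)
  · exact td_mul (a := 1) (b := 2) (td_X _ le_rfl) (td_sub (td_sub td_one (td_Xpow _ _ le_rfl))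
      (td_Xpow _ _ le_rfl)) (by norm_num)

theorem td_Q : Q.totalDegree ≤ 3 := by
  unfold Q
  refine td_add (td_add (td_sub (td_mul (a := 1) (b := 2) (td_sub td_one (td_mul (a := 0) (b := 1)
    (td_C _) (td_X _ le_rfl) le_rfl)) (td_sub td_one (td_Xpow _ _ le_rfl)) le_rfl) ?_) ?_) ?_
  · exact td_mul (a := 0) (b := 2) (td_C _) (td_Xpow _ _ le_rfl) (by norm_num)
  · exact td_mul (a := 0) (b := 3) (td_C _) (td_Xpow _ _ le_rfl) (by norm_num)
  · exact td_mul (a := 1) (b := 2) (td_X _ le_rfl) (td_sub (td_sub td_one (td_Xpow _ _ le_rfl))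
      (td_mul (a := 0) (b := 2) (td_C _) (td_Xpow _ _ le_rfl) le_rfl)) (by norm_num)

/-- The cubic in `s` attached to a common extension. -/
theorem cubic_real (r : MvPolynomial τ ℝ) (hr : RealZero r) (c0 c1 c2 c3 c4 : ℝ)
    (hE : ∀ a : τ → ℂ, aeval a r = aeval (a ∘ ιp) P + aeval (a ∘ ιq) Q - aeval (a ∘ ι0) P0
        + a vy * a vz * (c0 + c1 * a (Sum.inl 0) + c2 * a (Sum.inl 1) + c3 * a vy + c4 * a vz))
    (x1 x2 y z : ℝ) (s : ℂ)
    (h : s ^ 3 + (-2 * x2 + y + z) * s ^ 2 + (-x1 ^ 2 - 11 * x2 ^ 2 + c0 * y * z) * s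
      + (2 * x2 * x1 ^ 2 + 12 * x2 ^ 3 - y * (x1 ^ 2 + x2 ^ 2) - z * (x1 ^ 2 + 9 * x2 ^ 2)
        + y * z * (c1 * x1 + c2 * x2 + c3 * y + c4 * z)) = 0) : s.im = 0 := by
  by_cases hs : s = 0
  · rw [hs]; rfl
  have hl := hr (Sum.elim ![x1, x2] (Sum.elim (fun _ => y) (fun _ => z))) s⁻¹ (by
    rw [hE]
    simp only [P, Q, P0, map_add, map_sub, map_mul, map_pow, aeval_X, map_one, aeval_C,
      Function.comp_apply, ιp, ιq, ι0, Sum.elim_inl, Sum.elim_inr, Matrix.cons_val_zero,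
      Matrix.cons_val_one, Complex.coe_algebraMap]
    push_cast
    have h' : (s⁻¹) ^ 3 * (s ^ 3 + (-2 * x2 + y + z) * s ^ 2
      + (-x1 ^ 2 - 11 * x2 ^ 2 + c0 * y * z) * s
      + (2 * x2 * x1 ^ 2 + 12 * x2 ^ 3 - y * (x1 ^ 2 + x2 ^ 2) - z * (x1 ^ 2 + 9 * x2 ^ 2)
        + y * z * (c1 * x1 + c2 * x2 + c3 * y + c4 * z))) = 0 := by rw [h, mul_zero]
    rw [← h']
    field_simp
    ring)
  rw [Complex.inv_im] at hl
  rcases div_eq_zero_iff.mp hl with h1 | h1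
  · linarith
  · exact absurd (Complex.normSq_eq_zero.mp h1) hs

/-- The main theorem: `P` and `Q` have no real zero common extension of degree at most `3`. -/
theorem no_extension (r : MvPolynomial τ ℝ) (hr : RealZero r) (hrd : r.totalDegree ≤ 3)
    (hp : setZ r = P) (hq : setY r = Q) : False := by
  obtain ⟨c0, c1, c2, c3, c4, hE⟩ := exists_affine P Q (shared_P.trans shared_Q.symm) td_P td_Q
    (by rw [shared_P]; exact td_P0) r hrd hp hq
  rw [shared_P] at hE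
  have key := cubic_real r hr c0 c1 c2 c3 c4 hE
  -- c3 = 0
  have h3 : c3 = 0 := by
    have : -2 * c3 = 0 := lin_coeff_zero (-2 * c3) (c0 ^ 2 - 2 * c3 - 2 * c4) (-2 * c4) 0 (fun z => by
      have := cubic_ineq (1 + z) (c0 * z) (z * (c3 + c4 * z)) (fun t ht => by
        apply key 0 0 1 z t
        rw [← ht]; push_cast; ring)
      nlinarith [this])
    linarith
  have h4 : c4 = 0 := by
    have : -2 * c4 = 0 := lin_coeff_zero (-2 * c4) (c0 ^ 2 - 2 * c4 - 2 * c3) (-2 * c3) 0 (fun z => by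
      have := cubic_ineq (1 + z) (c0 * z) (z * (c4 + c3 * z)) (fun t ht => by
        apply key 0 0 z 1 t
        rw [← ht]; push_cast; ring)
      nlinarith [this])
    linarith
  subst h3 h4
  -- c0 + c1 = 0
  have h01 : c0 + c1 = 0 := by
    have : 4 * (c0 + c1) = 0 := lin_coeff_zero (4 * (c0 + c1)) (4 * (c0 + c1) + c0 ^ 2) (2 * c0 ^ 2)
      (c0 ^ 2) (fun y => by
      have := cubic_ineq 2 (c0 * (-y - y ^ 2)) ((-y - y ^ 2) * (c0 + c1)) (fun t ht => by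
        have := key 1 0 y (-1 - y) (1 + t) (by
          rw [← ht]; push_cast; ring)
        simpa using this)
      nlinarith [this])
    linarith
  have h02 : c1 - c0 = 0 := by
    have : 4 * (c1 - c0) = 0 := lin_coeff_zero (4 * (c1 - c0)) (-4 * (c1 - c0) + c0 ^ 2) (-2 * c0 ^ 2)
      (c0 ^ 2) (fun y => by
      have := cubic_ineq (-2) (c0 * (y - y ^ 2)) ((y - y ^ 2) * (c1 - c0)) (fun t ht => by
        have := key 1 0 y (1 - y) (-1 + t) (by
          rw [← ht]; push_cast; ring)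
        simpa using this)
      nlinarith [this])
    linarith
  have h0 : c0 = 0 := by linarith
  have h1 : c1 = 0 := by linarith
  subst h0 h1
  have hA : 6 * c2 - 8 = 0 := by
    have : -14 * (6 * c2 - 8) = 0 := lin_coeff_zero (-14 * (6 * c2 - 8)) (4 - 2 * (6 * c2 - 8)) 0 0
      (fun z => by
      have := cubic_ineq (7 + z) (2 * z) (z * (6 * c2 - 8)) (fun t ht => by
        have := key 0 1 6 z (1 + t) (by
          rw [← ht]; push_cast; ring)
        simpa using this)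
      nlinarith [this])
    linarith
  have hB : 8 + 14 / 3 * c2 = 0 := by
    have : 38 / 3 * (8 + 14 / 3 * c2) = 0 := lin_coeff_zero (38 / 3 * (8 + 14 / 3 * c2))
      (36 - 2 * (8 + 14 / 3 * c2)) 0 0
      (fun y => by
      have := cubic_ineq (-19 / 3 + y) (-6 * y) (y * (8 + 14 / 3 * c2)) (fun t ht => by
        have := key 0 1 y (14 / 3) (-3 + t) (by
          rw [← ht]; push_cast; ring)
        simpa using this)
      nlinarith [this])
    linarith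
  linarith

end H838R3.Am
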