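import Pool.Agent.H838R3.AmDefs

/-!
Structure of a common extension: it is determined up to `y z (affine)`.
-/

namespace H838R3.Am

open MvPolynomial

theorem X_dvd_sub {σ : Type} (i : σ) (θ : MvPolynomial σ ℝ →ₐ[ℝ] MvPolynomial σ ℝ)
    (h : ∀ j, (X i : MvPolynomial σ ℝ) ∣ X j - θ (X j)) (f : MvPolynomial σ ℝ) :
    (X i : MvPolynomial σ ℝ) ∣ f - θ f := by
  induction f using MvPolynomial.induction_on with
  | C a =>
    have : θ (C a) = C a := θ.commutes a
    rw [this, sub_self]; exact dvd_zero _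
  | add p q hp hq =>
    have : p + q - θ (p + q) = (p - θ p) + (q - θ q) := by rw [map_add]; ring
    rw [this]; exact dvd_add hp hq
  | mul_X p j hp =>
    have : p * X j - θ (p * X j) = (p - θ p) * X j + θ p * (X j - θ (X j)) := by
      rw [map_mul]; ring
    rw [this]; exact dvd_add (Dvd.dvd.mul_right hp _) (Dvd.dvd.mul_left (h j) _)

theorem affine_of_totalDegree_le_one {σ : Type} [Fintype σ] [DecidableEq σ]
    (u : MvPolynomial σ ℝ) (h : u.totalDegree ≤ 1) :
    ∀ a : σ → ℂ, aeval a u = ((coeff 0 u : ℝ) : ℂ)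
      + ∑ i, ((coeff (Finsupp.single i 1) u : ℝ) : ℂ) * a i := by
  intro a
  have hsub : u.support ⊆ insert 0 (Finset.univ.image (fun i : σ => Finsupp.single i 1)) := by
    intro m hm
    have h1 : (m.sum fun _ e => e) ≤ 1 := le_trans (le_totalDegree hm) h
    rw [Finset.mem_insert]
    by_cases hm0 : m = 0
    · exact Or.inl hm0
    · right
      obtain ⟨i, hi⟩ := Finsupp.ne_iff.mp hm0
      simp only [Finsupp.coe_zero, Pi.zero_apply] at hi
      rw [Finset.mem_image]
      refine ⟨i, Finset.mem_univ _, ?_⟩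
      rw [Finsupp.sum_fintype _ _ (by simp)] at h1
      ext j
      by_cases hj : j = i
      · subst hj
        rw [Finsupp.single_eq_same]
        have : m j ≤ ∑ k, m k := Finset.single_le_sum (f := fun k => m k) (fun _ _ => Nat.zero_le _) (Finset.mem_univ j)
        omega
      · rw [Finsupp.single_eq_of_ne (by exact hj)]
        have : m i + m j ≤ ∑ k, m k := by
          have h2 := Finset.sum_le_sum_of_subset (f := fun k => m k)
            (Finset.subset_univ ({i, j} : Finset σ))
          rw [Finset.sum_pair (Ne.symm hj)] at h2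
          exact h2
        omega
  rw [aeval_def, eval₂_eq']
  rw [Finset.sum_subset hsub]
  · rw [Finset.sum_insert]
    · congr 1
      · simp
      · rw [Finset.sum_image]
        · apply Finset.sum_congr rfl
          intro i _
          congr 1
          rw [Finset.prod_eq_single i]
          · simp
          · intro b _ hb
            rw [Finsupp.single_eq_of_ne hb]; simp
          · simp
        · intro i _ j _ hij
          exact (Finsupp.single_left_injective one_ne_zero) hij
    · rw [Finset.mem_image]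
      rintro ⟨i, _, hi⟩
      have := congrArg (fun f => f i) hi
      simp at this
  · intro m _ hm
    rw [notMem_support_iff] at hm
    rw [hm]; simp

abbrev τ := Fin 2 ⊕ (Fin 1 ⊕ Fin 1)

/-- The variable `y`. -/
abbrev vy : τ := Sum.inr (Sum.inl 0)
/-- The variable `z`. -/
abbrev vz : τ := Sum.inr (Sum.inr 0)

def ιp : Fin 2 ⊕ Fin 1 → τ := Sum.elim Sum.inl (fun j => Sum.inr (Sum.inl j))
def ιq : Fin 2 ⊕ Fin 1 → τ := Sum.elim Sum.inl (fun j => Sum.inr (Sum.inr j))
def ι0 : Fin 2 → τ := Sum.inl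

noncomputable def θz : MvPolynomial τ ℝ →ₐ[ℝ] MvPolynomial τ ℝ :=
  aeval (Sum.elim (fun i => X (Sum.inl i)) (Sum.elim (fun j => X (Sum.inr (Sum.inl j))) (fun _ => 0)))

noncomputable def θy : MvPolynomial τ ℝ →ₐ[ℝ] MvPolynomial τ ℝ :=
  aeval (Sum.elim (fun i => X (Sum.inl i)) (Sum.elim (fun _ => 0) (fun j => X (Sum.inr (Sum.inr j)))))

theorem θz_r (r : MvPolynomial τ ℝ) : θz r = rename ιp (setZ r) := by
  have : θz = (rename ιp).comp (aeval (Sum.elim (fun i => X (Sum.inl i))
      (Sum.elim (fun j => X (Sum.inr j)) (fun _ => 0))) :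
        MvPolynomial τ ℝ →ₐ[ℝ] MvPolynomial (Fin 2 ⊕ Fin 1) ℝ) := by
    apply MvPolynomial.algHom_ext
    rintro (i | j | j) <;> simp [θz, ιp]
  rw [this]; rfl

theorem θy_r (r : MvPolynomial τ ℝ) : θy r = rename ιq (setY r) := by
  have : θy = (rename ιq).comp (aeval (Sum.elim (fun i => X (Sum.inl i))
      (Sum.elim (fun _ => 0) (fun j => X (Sum.inr j)))) :
        MvPolynomial τ ℝ →ₐ[ℝ] MvPolynomial (Fin 2 ⊕ Fin 1) ℝ) := by
    apply MvPolynomial.algHom_ext
    rintro (i | j | j) <;> simp [θy, ιq]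
  rw [this]; rfl

theorem θz_p (p : MvPolynomial (Fin 2 ⊕ Fin 1) ℝ) : θz (rename ιp p) = rename ιp p := by
  have : θz.comp (rename ιp) = rename ιp := by
    apply MvPolynomial.algHom_ext
    rintro (i | j) <;> simp [θz, ιp]
  exact congrArg (fun f => f p) this

theorem θy_q (p : MvPolynomial (Fin 2 ⊕ Fin 1) ℝ) : θy (rename ιq p) = rename ιq p := by
  have : θy.comp (rename ιq) = rename ιq := by
    apply MvPolynomial.algHom_ext
    rintro (i | j) <;> simp [θy, ιq]
  exact congrArg (fun f => f p) this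

theorem θz_q (q : MvPolynomial (Fin 2 ⊕ Fin 1) ℝ) : θz (rename ιq q) = rename ι0 (shared q) := by
  have : θz.comp (rename ιq) = (rename ι0).comp (aeval (Sum.elim (fun i => X i) (fun _ => 0)) :
      MvPolynomial (Fin 2 ⊕ Fin 1) ℝ →ₐ[ℝ] MvPolynomial (Fin 2) ℝ) := by
    apply MvPolynomial.algHom_ext
    rintro (i | j) <;> simp [θz, ιq, ι0]
  exact congrArg (fun f => f q) this

theorem θy_p (q : MvPolynomial (Fin 2 ⊕ Fin 1) ℝ) : θy (rename ιp q) = rename ι0 (shared q) := by
  have : θy.comp (rename ιp) = (rename ι0).comp (aeval (Sum.elim (fun i => X i) (fun _ => 0)) :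
      MvPolynomial (Fin 2 ⊕ Fin 1) ℝ →ₐ[ℝ] MvPolynomial (Fin 2) ℝ) := by
    apply MvPolynomial.algHom_ext
    rintro (i | j) <;> simp [θy, ιp, ι0]
  exact congrArg (fun f => f q) this

theorem θz_0 (q : MvPolynomial (Fin 2) ℝ) : θz (rename ι0 q) = rename ι0 q := by
  have : θz.comp (rename ι0) = rename ι0 := by
    apply MvPolynomial.algHom_ext
    intro i; simp [θz, ι0]
  exact congrArg (fun f => f q) this

theorem θy_0 (q : MvPolynomial (Fin 2) ℝ) : θy (rename ι0 q) = rename ι0 q := by
  have : θy.comp (rename ι0) = rename ι0 := by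
    apply MvPolynomial.algHom_ext
    intro i; simp [θy, ι0]
  exact congrArg (fun f => f q) this

theorem X_dvd_z (f : MvPolynomial τ ℝ) : (X vz : MvPolynomial τ ℝ) ∣ f - θz f := by
  apply X_dvd_sub
  rintro (i | j | j)
  · simp [θz]
  · simp [θz]
  · have : j = 0 := Subsingleton.elim _ _
    subst this
    simp [θz]

theorem X_dvd_y (f : MvPolynomial τ ℝ) : (X vy : MvPolynomial τ ℝ) ∣ f - θy f := by
  apply X_dvd_sub
  rintro (i | j | j)
  · simp [θy]
  · have : j = 0 := Subsingleton.elim _ _
    subst this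
    simp [θy]
  · simp [θy]

/-- Structure theorem for common extensions (any degree). -/
theorem exists_quot (p q : MvPolynomial (Fin 2 ⊕ Fin 1) ℝ) (hs : shared p = shared q)
    (r : MvPolynomial τ ℝ) (hp : setZ r = p) (hq : setY r = q) :
    ∃ u : MvPolynomial τ ℝ,
      r = rename ιp p + rename ιq q - rename ι0 (shared p) + X vy * (X vz * u) := by
  set g := r - rename ιp p - rename ιq q + rename ι0 (shared p) with hg
  have hz : θz g = 0 := by
    rw [hg, map_add, map_sub, map_sub, θz_r, θz_p, θz_q, θz_0, hp, hs]; ring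
  have hy : θy g = 0 := by
    rw [hg, map_add, map_sub, map_sub, θy_r, θy_p, θy_q, θy_0, hq]; ring
  obtain ⟨t, ht⟩ : (X vz : MvPolynomial τ ℝ) ∣ g := by
    have := X_dvd_z g
    rwa [hz, sub_zero] at this
  have hty : θy t = 0 := by
    have h1 : θy g = θy (X vz) * θy t := by rw [ht, map_mul]
    have h2 : θy (X vz) = X vz := by simp [θy]
    rw [hy, h2] at h1
    rcases mul_eq_zero.mp h1.symm with h | h
    · exact absurd h (X_ne_zero _)
    · exact h
  obtain ⟨u, hu⟩ : (X vy : MvPolynomial τ ℝ) ∣ t := by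
    have := X_dvd_y t
    rwa [hty, sub_zero] at this
  refine ⟨u, ?_⟩
  have : r = g + rename ιp p + rename ιq q - rename ι0 (shared p) := by rw [hg]; ring
  rw [this, ht, hu]; ring

/-- Structure of common extensions of degree at most three. -/
theorem exists_affine (p q : MvPolynomial (Fin 2 ⊕ Fin 1) ℝ) (hs : shared p = shared q)
    (hpd : p.totalDegree ≤ 3) (hqd : q.totalDegree ≤ 3) (h0d : (shared p).totalDegree ≤ 3)
    (r : MvPolynomial τ ℝ) (hrd : r.totalDegree ≤ 3) (hp : setZ r = p) (hq : setY r = q) :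
    ∃ c0 c1 c2 c3 c4 : ℝ, ∀ a : τ → ℂ,
      aeval a r = aeval (a ∘ ιp) p + aeval (a ∘ ιq) q - aeval (a ∘ ι0) (shared p)
        + a vy * a vz * (c0 + c1 * a (Sum.inl 0) + c2 * a (Sum.inl 1) + c3 * a vy + c4 * a vz) := by
  obtain ⟨u, hu⟩ := exists_quot p q hs r hp hq
  have hdeg : u.totalDegree ≤ 1 := by
    by_cases hu0 : u = 0
    · rw [hu0, totalDegree_zero]; exact Nat.zero_le _
    have hg : X vy * (X vz * u) = r - rename ιp p - rename ιq q + rename ι0 (shared p) := by
      rw [hu]; ring
    have h1 : (X vy * (X vz * u) : MvPolynomial τ ℝ).totalDegree ≤ 3 := by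
      rw [hg]
      refine le_trans (totalDegree_add _ _) (max_le ?_ ?_)
      · refine le_trans (totalDegree_sub _ _) (max_le ?_ ?_)
        · refine le_trans (totalDegree_sub _ _) (max_le hrd ?_)
          exact le_trans (totalDegree_rename_le _ _) hpd
        · exact le_trans (totalDegree_rename_le _ _) hqd
      · exact le_trans (totalDegree_rename_le _ _) h0d
    rw [totalDegree_mul_of_isDomain (X_ne_zero _) (mul_ne_zero (X_ne_zero _) hu0),
      totalDegree_mul_of_isDomain (X_ne_zero _) hu0, totalDegree_X, totalDegree_X] at h1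
    omega
  refine ⟨coeff 0 u, coeff (Finsupp.single (Sum.inl 0) 1) u, coeff (Finsupp.single (Sum.inl 1) 1) u,
    coeff (Finsupp.single vy 1) u, coeff (Finsupp.single vz 1) u, ?_⟩
  intro a
  conv_lhs => rw [hu]
  rw [map_add, map_sub, map_add, map_mul, map_mul, aeval_rename, aeval_rename, aeval_rename,
    aeval_X, aeval_X, affine_of_totalDegree_le_one u hdeg a]
  rw [Fintype.sum_sum_type, Fintype.sum_sum_type, Fin.sum_univ_two, Fin.sum_univ_one,
    Fin.sum_univ_one]
  ring

end H838R3.Am
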