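import Pool.Agent.H838R3.CSDefs

namespace Pool.Agent.H838R3.CS

open Matrix

variable {m n r : ℕ}

lemma HasNonnegFactorization.succ {s : ℕ} {M : Matrix (Fin m) (Fin n) ℝ}
    (h : HasNonnegFactorization s M) : HasNonnegFactorization (s + 1) M := by
  obtain ⟨A, B, hA, hB, rfl⟩ := h
  refine ⟨Matrix.of fun i => (Fin.snoc (A i) 0 : Fin (s+1) → ℝ),
    Matrix.of fun k j => (Fin.snoc (fun k => B k j) 0 : Fin (s+1) → ℝ) k, ?_, ?_, ?_⟩
  · intro i k
    refine Fin.lastCases ?_ (fun k => ?_) k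
    · simp
    · simp [hA]
  · intro k j
    refine Fin.lastCases ?_ (fun k => ?_) k
    · simp
    · simp [hB]
  · ext i j
    rw [Matrix.mul_apply, Matrix.mul_apply, Fin.sum_univ_castSucc]
    simp

lemma HasNonnegFactorization.mono {s t : ℕ} (hst : s ≤ t) {M : Matrix (Fin m) (Fin n) ℝ}
    (h : HasNonnegFactorization s M) : HasNonnegFactorization t M := by
  induction t, hst using Nat.le_induction with
  | base => exact h
  | succ t _ ih => exact ih.succ

lemma HasNonnegFactorization.nonneg {s : ℕ} {M : Matrix (Fin m) (Fin n) ℝ}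
    (h : HasNonnegFactorization s M) (i : Fin m) (j : Fin n) : 0 ≤ M i j := by
  obtain ⟨A, B, hA, hB, rfl⟩ := h
  rw [Matrix.mul_apply]
  exact Finset.sum_nonneg fun k _ => mul_nonneg (hA i k) (hB k j)

lemma mem_nonnegRankSet_iff {M : Matrix (Fin m) (Fin n) ℝ} :
    M ∈ nonnegRankSet m n r ↔ HasNonnegFactorization r M := by
  constructor
  · rintro ⟨h0, h1⟩
    have hne : {s : ℕ | HasNonnegFactorization s M}.Nonempty := by
      refine ⟨n, M, 1, h0, ?_, by simp⟩
      intro k j
      by_cases h : k = j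
      · subst h; simp
      · simp [Matrix.one_apply_ne h]
    have := Nat.sInf_mem hne
    exact HasNonnegFactorization.mono h1 this
  · intro h
    exact ⟨h.nonneg, Nat.sInf_le h⟩

lemma rank_mul_le_inner (A : Matrix (Fin m) (Fin r) ℝ) (B : Matrix (Fin r) (Fin n) ℝ) :
    (A * B).rank ≤ r :=
  (Matrix.rank_mul_le_left A B).trans (Matrix.rank_le_width A)

lemma HasNonnegFactorization.rank_le {M : Matrix (Fin m) (Fin n) ℝ}
    (h : HasNonnegFactorization r M) : M.rank ≤ r := by
  obtain ⟨A, B, _, _, rfl⟩ := h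
  exact rank_mul_le_inner A B

/-- bounded representation of a nonnegative factorization -/
lemma bounded_factorization {M : Matrix (Fin m) (Fin n) ℝ} {R : ℝ}
    (h : HasNonnegFactorization r M) (hR : ∀ i j, M i j ≤ R) :
    ∃ (A : Matrix (Fin m) (Fin r) ℝ) (B : Matrix (Fin r) (Fin n) ℝ),
      (∀ i k, A i k ∈ Set.Icc (0:ℝ) 1) ∧ (∀ k j, B k j ∈ Set.Icc (0:ℝ) (m * R)) ∧ M = A * B := by
  obtain ⟨A, B, hA, hB, rfl⟩ := h
  set s : Fin r → ℝ := fun k => ∑ i, A i k with hs
  have hs0 : ∀ k, 0 ≤ s k := fun k => Finset.sum_nonneg fun i _ => hA i k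
  have hAs : ∀ i k, A i k ≤ s k := fun i k =>
    Finset.single_le_sum (f := fun i => A i k) (fun i _ => hA i k) (Finset.mem_univ i)
  refine ⟨Matrix.of fun i k => A i k / s k, Matrix.of fun k j => s k * B k j, ?_, ?_, ?_⟩
  · intro i k
    refine ⟨div_nonneg (hA i k) (hs0 k), ?_⟩
    exact div_le_one_of_le₀ (hAs i k) (hs0 k)
  · intro k j
    refine ⟨mul_nonneg (hs0 k) (hB k j), ?_⟩
    calc (Matrix.of fun k j => s k * B k j) k j = ∑ i, A i k * B k j := by rw [Matrix.of_apply, hs, Finset.sum_mul]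
      _ ≤ ∑ i : Fin m, R := by
          apply Finset.sum_le_sum
          intro i _
          refine le_trans ?_ (hR i j)
          rw [Matrix.mul_apply]
          exact Finset.single_le_sum (f := fun k => A i k * B k j)
            (fun k _ => mul_nonneg (hA i k) (hB k j)) (Finset.mem_univ k)
      _ = m * R := by simp
  · ext i j
    rw [Matrix.mul_apply, Matrix.mul_apply]
    apply Finset.sum_congr rfl
    intro k _
    rw [Matrix.of_apply, Matrix.of_apply]
    by_cases h : s k = 0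
    · have : A i k = 0 := le_antisymm (by rw [← h]; exact hAs i k) (hA i k)
      simp [this]
    · field_simp

lemma isClosed_hasNonnegFactorization :
    IsClosed {M : Matrix (Fin m) (Fin n) ℝ | HasNonnegFactorization r M} := by
  rw [← closure_subset_iff_isClosed]
  intro M hM
  -- bound for the entries near `M`
  obtain ⟨R, hR⟩ : ∃ R : ℝ, ∀ i j, M i j < R := by
    refine ⟨∑ i, ∑ j, |M i j| + 1, fun i j => ?_⟩
    have h1 : |M i j| ≤ ∑ j, |M i j| :=
      Finset.single_le_sum (f := fun j => |M i j|) (fun _ _ => abs_nonneg _) (Finset.mem_univ j)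
    have h2 : ∑ j, |M i j| ≤ ∑ i, ∑ j, |M i j| :=
      Finset.single_le_sum (f := fun i => ∑ j, |M i j|)
        (fun _ _ => Finset.sum_nonneg fun _ _ => abs_nonneg _) (Finset.mem_univ i)
    have h3 := le_abs_self (M i j)
    linarith
  set U : Set (Matrix (Fin m) (Fin n) ℝ) := {N | ∀ i j, N i j < R} with hU
  have hUo : IsOpen U := by
    have : U = ⋂ i, ⋂ j, {N : Matrix (Fin m) (Fin n) ℝ | N i j < R} := by
      ext N; simp [hU]
    rw [this]
    refine isOpen_iInter_of_finite fun i => isOpen_iInter_of_finite fun j => ?_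
    exact isOpen_lt (continuous_id.matrix_elem i j) continuous_const
  set K : Set (Matrix (Fin m) (Fin r) ℝ × Matrix (Fin r) (Fin n) ℝ) :=
    {p | (∀ i k, p.1 i k ∈ Set.Icc (0:ℝ) 1) ∧ (∀ k j, p.2 k j ∈ Set.Icc (0:ℝ) (m * R))} with hK
  have hKc : IsCompact K := by
    have h1 : IsCompact {A : Matrix (Fin m) (Fin r) ℝ | ∀ i k, A i k ∈ Set.Icc (0:ℝ) 1} :=
      (isCompact_Icc (a := (0:ℝ)) (b := 1)).matrix
    have h2 : IsCompact {B : Matrix (Fin r) (Fin n) ℝ | ∀ k j, B k j ∈ Set.Icc (0:ℝ) (m * R)} :=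
      (isCompact_Icc (a := (0:ℝ)) (b := m * R)).matrix
    exact h1.prod h2
  have himg : IsCompact ((fun p : Matrix (Fin m) (Fin r) ℝ × Matrix (Fin r) (Fin n) ℝ =>
      p.1 * p.2) '' K) :=
    hKc.image (continuous_fst.matrix_mul continuous_snd)
  have hM2 : M ∈ closure (U ∩ {M : Matrix (Fin m) (Fin n) ℝ | HasNonnegFactorization r M}) := by
    rw [mem_closure_iff_nhdsWithin_neBot] at hM ⊢
    rw [Set.inter_comm, nhdsWithin_inter_of_mem' (mem_nhdsWithin_of_mem_nhds (hUo.mem_nhds hR))]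
    exact hM
  have hM3 : M ∈ (fun p : Matrix (Fin m) (Fin r) ℝ × Matrix (Fin r) (Fin n) ℝ =>
      p.1 * p.2) '' K := by
    rw [← himg.isClosed.closure_eq]
    refine closure_mono ?_ hM2
    rintro N ⟨hN1, hN2⟩
    obtain ⟨A, B, hA, hB, rfl⟩ := bounded_factorization hN2 (fun i j => (hN1 i j).le)
    exact ⟨(A, B), ⟨hA, hB⟩, rfl⟩
  obtain ⟨⟨A, B⟩, ⟨hA, hB⟩, rfl⟩ := hM3
  exact ⟨A, B, fun i k => (hA i k).1, fun k j => (hB k j).1, rfl⟩

/-- working description of the topological boundary -/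
def Bd (m n r : ℕ) : Set (Matrix (Fin m) (Fin n) ℝ) :=
  {M | HasNonnegFactorization r M ∧
    M ∈ closure {N : Matrix (Fin m) (Fin n) ℝ | N.rank ≤ r ∧ ¬ HasNonnegFactorization r N}}

lemma topologicalBoundary_eq : topologicalBoundary m n r = Bd m n r := by
  ext M
  constructor
  · rintro ⟨x, hx, rfl⟩
    rw [frontier_eq_closure_inter_closure] at hx
    obtain ⟨h1, h2⟩ := hx
    rw [closure_subtype] at h1 h2
    constructor
    · have : (x : Matrix (Fin m) (Fin n) ℝ) ∈
          closure {M : Matrix (Fin m) (Fin n) ℝ | HasNonnegFactorization r M} := by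
        refine closure_mono ?_ h1
        rintro _ ⟨y, hy, rfl⟩
        exact mem_nonnegRankSet_iff.1 hy
      rwa [isClosed_hasNonnegFactorization.closure_eq] at this
    · refine closure_mono ?_ h2
      rintro _ ⟨y, hy, rfl⟩
      refine ⟨y.2, fun h => hy (mem_nonnegRankSet_iff.2 h)⟩
  · rintro ⟨h1, h2⟩
    refine ⟨⟨M, h1.rank_le⟩, ?_, rfl⟩
    rw [frontier_eq_closure_inter_closure]
    constructor
    · exact subset_closure (mem_nonnegRankSet_iff.2 h1)
    · rw [closure_subtype]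
      refine closure_mono ?_ h2
      rintro N ⟨hN1, hN2⟩
      exact ⟨⟨N, hN1⟩, fun h => hN2 (mem_nonnegRankSet_iff.1 h), rfl⟩

end Pool.Agent.H838R3.CS
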