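import Mathlib

/-!
Definitions for the column stabilization theorem (algebraic boundaries of nonnegative rank).
-/

namespace Pool.Agent.H838R3.CS

open Matrix

/-- `M` is a product of two entrywise nonnegative matrices with inner size `s`. -/
def HasNonnegFactorization {m n : ℕ} (s : ℕ) (M : Matrix (Fin m) (Fin n) ℝ) : Prop :=
  ∃ (A : Matrix (Fin m) (Fin s) ℝ) (B : Matrix (Fin s) (Fin n) ℝ),
    (∀ i k, 0 ≤ A i k) ∧ (∀ k j, 0 ≤ B k j) ∧ M = A * B

/-- The nonnegative rank of a matrix: the least inner size of a nonnegative factorization. -/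
noncomputable def nonnegRank {m n : ℕ} (M : Matrix (Fin m) (Fin n) ℝ) : ℕ :=
  sInf {s : ℕ | HasNonnegFactorization s M}

/-- The set of entrywise nonnegative `m × n` matrices of nonnegative rank at most `r`. -/
def nonnegRankSet (m n r : ℕ) : Set (Matrix (Fin m) (Fin n) ℝ) :=
  {M | (∀ i j, 0 ≤ M i j) ∧ nonnegRank M ≤ r}

/-- The set of real `m × n` matrices of rank at most `r`. -/
def rankSet (m n r : ℕ) : Set (Matrix (Fin m) (Fin n) ℝ) :=
  {M | M.rank ≤ r}

/-- The topological boundary of `nonnegRankSet m n r` as a subset of `rankSet m n r`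
(with the Euclidean subspace topology). -/
def topologicalBoundary (m n r : ℕ) : Set (Matrix (Fin m) (Fin n) ℝ) :=
  Subtype.val '' frontier {M : rankSet m n r | (M : Matrix (Fin m) (Fin n) ℝ) ∈ nonnegRankSet m n r}

/-- The Zariski closure in the affine space of real `m × n` matrices: all matrices at which
every real polynomial in the entries vanishing on `S` vanishes. -/
def zariskiClosure {m n : ℕ} (S : Set (Matrix (Fin m) (Fin n) ℝ)) :
    Set (Matrix (Fin m) (Fin n) ℝ) :=
  {M | ∀ p : MvPolynomial (Fin m × Fin n) ℝ,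
    (∀ N ∈ S, MvPolynomial.eval (fun ij => N ij.1 ij.2) p = 0) →
      MvPolynomial.eval (fun ij => M ij.1 ij.2) p = 0}

/-- The algebraic boundary: the Zariski closure of the topological boundary. -/
def algebraicBoundary (m n r : ℕ) : Set (Matrix (Fin m) (Fin n) ℝ) :=
  zariskiClosure (topologicalBoundary m n r)

/-- The matrix obtained from `M` by deleting the column with index `j`. -/
def deleteColumn {m n : ℕ} (M : Matrix (Fin m) (Fin (n + 1)) ℝ) (j : Fin (n + 1)) :
    Matrix (Fin m) (Fin n) ℝ :=
  fun i k => M i (j.succAbove k)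

end Pool.Agent.H838R3.CS
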