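import Pool.Agent.H838R3.CSStepC

namespace Pool.Agent.H838R3.CS

open Matrix Filter Topology

variable {m n r : ℕ}

lemma perturb_entry (A : Matrix (Fin m) (Fin r) ℝ) (B : Matrix (Fin r) (Fin n) ℝ)
    (i : Fin m) (l : Fin n) (k0 : Fin r) (a b : ℝ) :
    ((A + Matrix.of fun i' k' => if i' = i ∧ k' = k0 then a else 0) *
      (B + Matrix.of fun k' l' => if k' = k0 ∧ l' = l then b else 0)) i l =
      (A * B) i l + A i k0 * b + a * B k0 l + a * b := by
  simp only [Matrix.mul_apply, Matrix.add_apply, Matrix.of_apply, true_and, and_true]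
  have : ∀ k : Fin r, (A i k + if k = k0 then a else 0) * (B k l + if k = k0 then b else 0) =
      A i k * B k l + (if k = k0 then A i k0 * b + a * B k0 l + a * b else 0) := by
    intro k
    by_cases hk : k = k0
    · subst hk; simp; ring
    · simp [hk]
  simp only [this, Finset.sum_add_distrib, Finset.sum_ite_eq', Finset.mem_univ, if_true]
  ring

/-- a matrix of small nonnegative rank with a zero entry lies on the boundary -/
lemma mem_Bd_of_zero (hr : 0 < r) {N : Matrix (Fin m) (Fin n) ℝ}
    (hN : HasNonnegFactorization r N) {i : Fin m} {l : Fin n} (h0 : N i l = 0) :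
    N ∈ Bd m n r := by
  refine ⟨hN, ?_⟩
  obtain ⟨A, B, hA, hB, rfl⟩ := hN
  set k0 : Fin r := ⟨0, hr⟩ with hk0
  have hzero : A i k0 * B k0 l = 0 := by
    rw [Matrix.mul_apply] at h0
    exact (Finset.sum_eq_zero_iff_of_nonneg (fun k _ => mul_nonneg (hA i k) (hB k l))).1 h0 k0
      (Finset.mem_univ _)
  -- signs
  obtain ⟨σ, hσ⟩ : ∃ σ : ℝ, ∀ s : ℝ, 0 < s → A i k0 * (σ * s) + (-σ * s) * B k0 l +
      (-σ * s) * (σ * s) < 0 := by
    rcases mul_eq_zero.1 hzero with h | h
    · refine ⟨1, fun s hs => ?_⟩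
      rw [h]
      have := mul_nonneg hs.le (hB k0 l)
      nlinarith [mul_pos hs hs]
    · refine ⟨-1, fun s hs => ?_⟩
      rw [h]
      have := mul_nonneg hs.le (hA i k0)
      nlinarith [mul_pos hs hs]
  set γ : ℝ → Matrix (Fin m) (Fin n) ℝ := fun s =>
    (A + Matrix.of fun i' k' => if i' = i ∧ k' = k0 then -σ * s else 0) *
      (B + Matrix.of fun k' l' => if k' = k0 ∧ l' = l then σ * s else 0) with hγ
  have hc : Continuous γ := by
    refine Continuous.matrix_mul (continuous_const.add ?_) (continuous_const.add ?_)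
    · refine continuous_matrix fun a b => ?_
      simp only [Matrix.of_apply]
      split_ifs
      · fun_prop
      · exact continuous_const
    · refine continuous_matrix fun a b => ?_
      simp only [Matrix.of_apply]
      split_ifs
      · fun_prop
      · exact continuous_const
  have hγ0 : γ 0 = A * B := by
    simp only [hγ, mul_zero, ite_self]
    have e1 : (Matrix.of fun (_ : Fin m) (_ : Fin r) => (0:ℝ)) = 0 := rfl
    have e2 : (Matrix.of fun (_ : Fin r) (_ : Fin n) => (0:ℝ)) = 0 := rfl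
    rw [e1, e2, add_zero, add_zero]
  have ht := (hc.tendsto 0).mono_left (nhdsWithin_le_nhds (s := Set.Ioi (0:ℝ)))
  rw [hγ0] at ht
  refine mem_closure_of_tendsto ht ?_
  filter_upwards [self_mem_nhdsWithin] with s hs
  refine ⟨rank_mul_le_inner _ _, fun hnn => ?_⟩
  have h1 := hnn.nonneg i l
  have h2 := perturb_entry A B i l k0 (-σ * s) (σ * s)
  have h3 := hσ s hs
  rw [h0] at h2
  simp only [hγ] at h1
  rw [h2] at h1
  linarith

lemma isOpen_pos : IsOpen {N : Matrix (Fin m) (Fin n) ℝ | ∀ i j, 0 < N i j} := by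
  have : {N : Matrix (Fin m) (Fin n) ℝ | ∀ i j, 0 < N i j} =
      ⋂ i, ⋂ j, {N : Matrix (Fin m) (Fin n) ℝ | 0 < N i j} := by
    ext N; simp
  rw [this]
  refine isOpen_iInter_of_finite fun i => isOpen_iInter_of_finite fun j => ?_
  exact isOpen_lt continuous_const (continuous_id.matrix_elem i j)

lemma lt_of_mem_Bd_pos {M : Matrix (Fin m) (Fin n) ℝ} (hM : M ∈ Bd m n r)
    (hpos : ∀ i j, 0 < M i j) : r < m := by
  by_contra hmr
  push Not at hmr
  have h1 := hM.2
  rw [mem_closure_iff_frequently] at h1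
  obtain ⟨N, ⟨_, hN2⟩, hN3⟩ := (h1.and_eventually (isOpen_pos.mem_nhds hpos)).exists
  apply hN2
  have hN3' : ∀ i j, 0 < N i j := hN3
  have : HasNonnegFactorization m N := by
    refine ⟨1, N, fun i k => ?_, fun k j => (hN3' k j).le, by simp⟩
    by_cases h : i = k
    · subst h; simp
    · simp [Matrix.one_apply_ne h]
  exact this.mono hmr

lemma isClosed_zariskiClosure (S : Set (Matrix (Fin m) (Fin n) ℝ)) :
    IsClosed (zariskiClosure S) := by
  have : zariskiClosure S = ⋂ p ∈ {p : MvPolynomial (Fin m × Fin n) ℝ |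
      ∀ N ∈ S, MvPolynomial.eval (fun ij => N ij.1 ij.2) p = 0},
      {M : Matrix (Fin m) (Fin n) ℝ | MvPolynomial.eval (fun ij => M ij.1 ij.2) p = 0} := by
    ext M
    simp [zariskiClosure]
  rw [this]
  refine isClosed_biInter fun p _ => ?_
  refine isClosed_eq ?_ continuous_const
  have h1 : Continuous (fun M : Matrix (Fin m) (Fin n) ℝ =>
      fun ij : Fin m × Fin n => M ij.1 ij.2) :=
    continuous_pi fun ij => continuous_id.matrix_elem ij.1 ij.2
  exact (MvPolynomial.continuous_eval p).comp h1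

/-- pigeonhole step for boundary matrices of full rank with positive entries -/
lemma exists_delete_full (hn : r * 2 ^ r ≤ n) (hm : r < m) {N : Matrix (Fin m) (Fin (n + 1)) ℝ}
    (hN : N ∈ Bd m (n + 1) r) (hrank : r ≤ N.rank) (hpos : ∀ i j, 0 < N i j) :
    ∃ j, deleteColumn N j ∈ zariskiClosure (Bd m n r) := by
  classical
  obtain ⟨⟨A, B, hA, hB, hAB⟩, hcl⟩ := hN
  subst hAB
  set f : Fin (n + 1) → Finset (Fin r) := fun j => Finset.univ.filter fun l => 0 < B l j with hf
  obtain ⟨T, hT⟩ := Fintype.exists_lt_card_fiber_of_mul_lt_card (n := r) f (by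
    rw [Fintype.card_finset, Fintype.card_fin, Fintype.card_fin]
    rw [mul_comm]; omega)
  obtain ⟨j0, hj0⟩ : ∃ j0, j0 ∈ Finset.univ.filter fun x => f x = T :=
    Finset.card_pos.1 (lt_of_le_of_lt (Nat.zero_le _) hT)
  have hj0' : f j0 = T := (Finset.mem_filter.1 hj0).2
  have hTne : T.Nonempty := by
    by_contra hTe
    rw [Finset.not_nonempty_iff_eq_empty] at hTe
    have hcol : ∀ l, B l j0 = 0 := by
      intro l
      have h1 : l ∉ f j0 := by rw [hj0', hTe]; simp
      have h2 : ¬ 0 < B l j0 := by simpa [hf] using h1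
      exact le_antisymm (not_lt.1 h2) (hB l j0)
    have h3 := hpos ⟨0, by omega⟩ j0
    rw [Matrix.mul_apply] at h3
    simp [hcol] at h3
  set S : Finset (Fin n) := Finset.univ.filter fun k => f (j0.succAbove k) = T with hS
  have hcard : r ≤ S.card := by
    have hsub : (Finset.univ.filter fun x => f x = T) ⊆ insert j0 (S.image j0.succAbove) := by
      intro x hx
      have hx' : f x = T := (Finset.mem_filter.1 hx).2
      rcases Fin.eq_self_or_eq_succAbove j0 x with rfl | ⟨k, rfl⟩
      · exact Finset.mem_insert_self _ _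
      · refine Finset.mem_insert_of_mem (Finset.mem_image_of_mem _ ?_)
        simp [hS, hx']
    have h1 := Finset.card_le_card hsub
    have h2 := Finset.card_insert_le j0 (S.image j0.succAbove)
    have h3 := Finset.card_image_le (s := S) (f := j0.succAbove)
    omega
  obtain ⟨e0⟩ : Nonempty (Fin r ↪ S) := by
    apply Function.Embedding.nonempty_of_card_le
    simpa using hcard
  set e : Fin r ↪ Fin n := e0.trans (Function.Embedding.subtype _) with he
  have heS : ∀ k, f (j0.succAbove (e k)) = T := by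
    intro k
    have : (e k) ∈ S := (e0 k).2
    exact (Finset.mem_filter.1 this).2
  refine ⟨j0, main_good hA hB (good_of_rank_eq hrank hcl) (j0 := j0) (e := e) (T := T) hTne ?_ ?_⟩
  · intro l
    rw [← hj0']
    simp [hf]
  · intro k l
    rw [← heS k]
    simp [hf]

lemma exists_delete_Bd (hn : r * 2 ^ r ≤ n) {M : Matrix (Fin m) (Fin (n + 1)) ℝ}
    (hM : M ∈ Bd m (n + 1) r) : ∃ j, deleteColumn M j ∈ zariskiClosure (Bd m n r) := by
  rcases Nat.eq_zero_or_pos r with hr | hr
  · subst hr
    exfalso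
    have h1 := hM.2
    rw [mem_closure_iff_frequently] at h1
    obtain ⟨N, hN1, hN2⟩ := h1.exists
    apply hN2
    have hN0 : N = 0 := by
      by_contra hne
      have := rank_pos_of_ne_zero hne
      omega
    rw [hN0]
    exact ⟨0, 0, by simp, by simp, by simp⟩
  by_cases hz : ∃ i l, M i l = 0
  · obtain ⟨i, l, hil⟩ := hz
    have hn1 : 1 ≤ n := by
      have : 1 ≤ r * 2 ^ r := Nat.one_le_iff_ne_zero.2 (by positivity)
      omega
    obtain ⟨j, hj⟩ : ∃ j : Fin (n + 1), j ≠ l := by
      have : Nontrivial (Fin (n + 1)) := Fin.nontrivial_iff_two_le.2 (by omega)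
      exact exists_ne l
    obtain ⟨k, hk⟩ := Fin.exists_succAbove_eq (x := l) (y := j) hj.symm
    refine ⟨j, ?_⟩
    intro p hp
    apply hp
    apply mem_Bd_of_zero hr (i := i) (l := k)
    · obtain ⟨A, B, hA, hB, rfl⟩ := hM.1
      refine ⟨A, deleteColumn B j, hA, fun k l => hB _ _, ?_⟩
      ext a b
      simp [deleteColumn, Matrix.mul_apply]
    · show M i (j.succAbove k) = 0
      rw [hk]; exact hil
  · push Not at hz
    have hpos : ∀ i j, 0 < M i j := fun i j =>
      lt_of_le_of_ne (hM.1.nonneg i j) (hz i j).symm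
    have hm : r < m := lt_of_mem_Bd_pos hM hpos
    have hn' : r < n + 1 := by
      have : r ≤ r * 2 ^ r := Nat.le_mul_of_pos_right _ (by positivity)
      omega
    by_contra hcon
    push Not at hcon
    have hcl := mem_closure_full hm hn' hM
    rw [mem_closure_iff_frequently] at hcl
    have hev1 : ∀ᶠ N in 𝓝 M, ∀ i j, 0 < N i j := isOpen_pos.mem_nhds hpos
    have hev2 : ∀ᶠ N in 𝓝 M, ∀ j, deleteColumn N j ∉ zariskiClosure (Bd m n r) := by
      refine eventually_all.2 fun j => ?_
      have := (isClosed_zariskiClosure (Bd m n r)).isOpen_compl.preimage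
        (continuous_deleteColumn (m := m) j)
      exact this.mem_nhds (hcon j)
    obtain ⟨N, ⟨hN1, hN2⟩, hN3, hN4⟩ := (hcl.and_eventually (hev1.and hev2)).exists
    obtain ⟨j, hj⟩ := exists_delete_full hn hm hN1 hN2 hN3
    exact hN4 j hj

theorem main (hn : r * 2 ^ r ≤ n) {M : Matrix (Fin m) (Fin (n + 1)) ℝ}
    (hM : M ∈ algebraicBoundary m (n + 1) r) :
    ∃ j, deleteColumn M j ∈ algebraicBoundary m n r := by
  unfold algebraicBoundary at hM ⊢
  rw [topologicalBoundary_eq] at hM ⊢
  by_contra hcon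
  push Not at hcon
  have hp : ∀ j : Fin (n + 1), ∃ p : MvPolynomial (Fin m × Fin n) ℝ,
      (∀ N ∈ Bd m n r, MvPolynomial.eval (fun ij => N ij.1 ij.2) p = 0) ∧
        MvPolynomial.eval (fun ij => deleteColumn M j ij.1 ij.2) p ≠ 0 := by
    intro j
    have := hcon j
    simp only [zariskiClosure, Set.mem_ofPred_eq] at this
    push Not at this
    exact this
  choose p hp1 hp2 using hp
  set P : MvPolynomial (Fin m × Fin (n + 1)) ℝ :=
    ∏ j, MvPolynomial.rename (fun ik : Fin m × Fin n => (ik.1, j.succAbove ik.2)) (p j) with hP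
  have hPe : ∀ N : Matrix (Fin m) (Fin (n + 1)) ℝ,
      MvPolynomial.eval (fun ij => N ij.1 ij.2) P =
        ∏ j, MvPolynomial.eval (fun ij => deleteColumn N j ij.1 ij.2) (p j) := by
    intro N
    rw [hP, map_prod]
    refine Finset.prod_congr rfl fun j _ => ?_
    rw [MvPolynomial.eval_rename]
    rfl
  have h0 := hM P (by
    intro N hN
    rw [hPe]
    obtain ⟨j, hj⟩ := exists_delete_Bd hn hN
    exact Finset.prod_eq_zero (Finset.mem_univ j) (hj (p j) (hp1 j)))
  rw [hPe] at h0
  obtain ⟨j, _, hj⟩ := Finset.prod_eq_zero_iff.1 h0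
  exact hp2 j hj

end Pool.Agent.H838R3.CS
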