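import Pool.Agent.H838R3.CSBasic

namespace Pool.Agent.H838R3.CS

open Matrix Filter Topology

variable {m n r : ℕ}

/-- replace the columns `e k` of `B` by the columns of `G` -/
noncomputable def modB (B : Matrix (Fin r) (Fin n) ℝ) (e : Fin r ↪ Fin n)
    (G : Matrix (Fin r) (Fin r) ℝ) : Matrix (Fin r) (Fin n) ℝ :=
  Matrix.of fun l j => Function.extend e (G l) (B l) j

lemma modB_apply_emb (B : Matrix (Fin r) (Fin n) ℝ) (e : Fin r ↪ Fin n)
    (G : Matrix (Fin r) (Fin r) ℝ) (l k : Fin r) : modB B e G l (e k) = G l k := by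
  simp [modB, e.injective.extend_apply]

lemma modB_apply_of_notMem (B : Matrix (Fin r) (Fin n) ℝ) (e : Fin r ↪ Fin n)
    (G : Matrix (Fin r) (Fin r) ℝ) (l : Fin r) {j : Fin n} (hj : ¬ ∃ k, e k = j) :
    modB B e G l j = B l j := by
  simp [modB, Function.extend_apply' _ _ _ hj]

/-- scale the rows outside `T` by `η` -/
def DG (T : Finset (Fin r)) (η : ℝ) (G : Matrix (Fin r) (Fin r) ℝ) : Matrix (Fin r) (Fin r) ℝ :=
  Matrix.of fun l k => (if l ∈ T then 1 else η) * G l k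

lemma DG_eq (T : Finset (Fin r)) (η : ℝ) (G : Matrix (Fin r) (Fin r) ℝ) :
    DG T η G = Matrix.diagonal (fun l => if l ∈ T then (1:ℝ) else η) * G := by
  ext l k
  simp [DG, Matrix.diagonal_mul]

lemma det_DG_ne_zero (T : Finset (Fin r)) {η : ℝ} (hη : η ≠ 0) {G : Matrix (Fin r) (Fin r) ℝ}
    (hG : G.det ≠ 0) : (DG T η G).det ≠ 0 := by
  rw [DG_eq, Matrix.det_mul, Matrix.det_diagonal]
  refine mul_ne_zero (Finset.prod_ne_zero_iff.2 fun l _ => ?_) hG
  split_ifs
  · exact one_ne_zero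
  · exact hη

lemma DG_mulVec (T : Finset (Fin r)) {η : ℝ} {G : Matrix (Fin r) (Fin r) ℝ} {v b : Fin r → ℝ}
    (hb : ∀ l, l ∉ T → b l = 0) (h : G *ᵥ v = b) : DG T η G *ᵥ v = b := by
  rw [DG_eq, ← Matrix.mulVec_mulVec, h]
  ext l
  rw [Matrix.mulVec_diagonal]
  split_ifs with hl
  · simp
  · simp [hb l hl]

/-- key step: enlarging the columns cannot create a nonnegative factorization -/
lemma not_nnf_of_cone {A : Matrix (Fin m) (Fin r) ℝ} {B : Matrix (Fin r) (Fin (n + 1)) ℝ}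
    {j0 : Fin (n + 1)} {e : Fin r ↪ Fin n} {C : Matrix (Fin r) (Fin r) ℝ} (hC : C.det ≠ 0)
    (h0 : ∀ l, 0 ≤ (C⁻¹ *ᵥ (fun l => B l j0)) l)
    (h1 : ∀ k l, 0 ≤ (C⁻¹ *ᵥ (fun l => B l (j0.succAbove (e k)))) l)
    (hn : ¬ HasNonnegFactorization r (A * B)) :
    ¬ HasNonnegFactorization r (A * modB (deleteColumn B j0) e C) := by
  rintro ⟨A₁, B₁, hA₁, hB₁, hAB⟩
  apply hn
  -- the columns in the cone
  have hcol : ∀ j : Fin n, A *ᵥ (fun l => modB (deleteColumn B j0) e C l j) =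
      A₁ *ᵥ (fun l => B₁ l j) := by
    intro j
    ext i
    have := congrFun (congrFun hAB i) j
    simpa [Matrix.mul_apply, Matrix.mulVec, dotProduct] using this
  have hcone : ∀ b : Fin r → ℝ, (∀ l, 0 ≤ (C⁻¹ *ᵥ b) l) →
      ∃ w : Fin r → ℝ, (∀ l, 0 ≤ w l) ∧ A *ᵥ b = A₁ *ᵥ w := by
    intro b hb
    set v := C⁻¹ *ᵥ b with hv
    have hCv : C *ᵥ v = b := by
      rw [hv, Matrix.mulVec_mulVec, Matrix.mul_nonsing_inv _ (isUnit_iff_ne_zero.2 hC),
        Matrix.one_mulVec]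
    refine ⟨fun l => ∑ k, B₁ l (e k) * v k, fun l => Finset.sum_nonneg fun k _ =>
      mul_nonneg (hB₁ _ _) (hb k), ?_⟩
    have e1 : A *ᵥ b = ∑ k, v k • (A *ᵥ (fun l => C l k)) := by
      rw [← hCv]
      ext i
      simp only [Matrix.mulVec, dotProduct, Finset.sum_apply, Pi.smul_apply, smul_eq_mul,
        Finset.mul_sum]
      rw [Finset.sum_comm]
      refine Finset.sum_congr rfl fun k _ => Finset.sum_congr rfl fun l _ => ?_
      ring
    have e2 : A₁ *ᵥ (fun l => ∑ k, B₁ l (e k) * v k) =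
        ∑ k, v k • (A₁ *ᵥ (fun l => B₁ l (e k))) := by
      ext i
      simp only [Matrix.mulVec, dotProduct, Finset.sum_apply, Pi.smul_apply, smul_eq_mul,
        Finset.mul_sum]
      rw [Finset.sum_comm]
      refine Finset.sum_congr rfl fun k _ => Finset.sum_congr rfl fun l _ => ?_
      ring
    rw [e1, e2]
    refine Finset.sum_congr rfl fun k _ => ?_
    rw [← hcol (e k)]
    congr 2
    ext l
    rw [modB_apply_emb]
  have hall : ∀ j : Fin (n + 1), ∃ w : Fin r → ℝ, (∀ l, 0 ≤ w l) ∧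
      A *ᵥ (fun l => B l j) = A₁ *ᵥ w := by
    intro j
    rcases Fin.eq_self_or_eq_succAbove j0 j with rfl | ⟨j', rfl⟩
    · exact hcone _ h0
    · by_cases hj : ∃ k, e k = j'
      · obtain ⟨k, rfl⟩ := hj
        exact hcone _ (h1 k)
      · refine ⟨fun l => B₁ l j', fun l => hB₁ _ _, ?_⟩
        rw [← hcol j']
        congr 1
        ext l
        rw [modB_apply_of_notMem _ _ _ _ hj]
        rfl
  choose w hw1 hw2 using hall
  refine ⟨A₁, Matrix.of fun l j => w j l, hA₁, fun l j => hw1 j l, ?_⟩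
  ext i j
  have := congrFun (hw2 j) i
  simpa [Matrix.mul_apply, Matrix.mulVec, dotProduct] using this

lemma continuous_modB (e : Fin r ↪ Fin n) :
    Continuous (fun p : Matrix (Fin r) (Fin n) ℝ × Matrix (Fin r) (Fin r) ℝ =>
      modB p.1 e p.2) := by
  refine continuous_matrix fun l j => ?_
  by_cases hj : ∃ k, e k = j
  · obtain ⟨k, rfl⟩ := hj
    simp only [modB_apply_emb]
    exact continuous_snd.matrix_elem l k
  · simp only [modB_apply_of_notMem _ _ _ _ hj]
    exact continuous_fst.matrix_elem l j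

lemma continuous_deleteColumn (j0 : Fin (n + 1)) :
    Continuous (fun M : Matrix (Fin m) (Fin (n + 1)) ℝ => deleteColumn M j0) :=
  continuous_matrix fun i k => continuous_id.matrix_elem i (j0.succAbove k)

lemma eventually_inv_pos {ι : Type*} [Finite ι] (b : ι → Fin r → ℝ)
    (G : Matrix (Fin r) (Fin r) ℝ) (hG : G.det ≠ 0) (hp : ∀ i l, 0 < (G⁻¹ *ᵥ b i) l) :
    ∀ᶠ G' in 𝓝 G, G'.det ≠ 0 ∧ ∀ i l, 0 < (G'⁻¹ *ᵥ b i) l := by
  have h1 : ∀ᶠ G' : Matrix (Fin r) (Fin r) ℝ in 𝓝 G, G'.det ≠ 0 :=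
    (continuous_id.matrix_det.continuousAt (x := G)).eventually_ne hG
  have hinv : ContinuousAt (fun G' : Matrix (Fin r) (Fin r) ℝ => G'⁻¹) G := by
    apply continuousAt_matrix_inv
    have : (Ring.inverse : ℝ → ℝ) = fun x => x⁻¹ := by
      ext x; exact Ring.inverse_eq_inv x
    rw [this]
    exact continuousAt_inv₀ hG
  have h2 : ∀ i l, ∀ᶠ G' in 𝓝 G, 0 < (G'⁻¹ *ᵥ b i) l := by
    intro i l
    have hc : ContinuousAt (fun G' : Matrix (Fin r) (Fin r) ℝ => (G'⁻¹ *ᵥ b i) l) G := by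
      have hc' : Continuous (fun H : Matrix (Fin r) (Fin r) ℝ => (H *ᵥ b i) l) :=
        (continuous_apply l).comp (continuous_id.matrix_mulVec continuous_const)
      exact ContinuousAt.comp (g := fun H : Matrix (Fin r) (Fin r) ℝ => (H *ᵥ b i) l)
        hc'.continuousAt hinv
    exact hc.eventually (lt_mem_nhds (hp i l))
  filter_upwards [h1, eventually_all.2 fun i => eventually_all.2 fun l => h2 i l] with G' h3 h4
  exact ⟨h3, h4⟩

/-- a starting matrix -/
lemma exists_G0 {ι : Type*} [Finite ι] (T : Finset (Fin r)) (hT : T.Nonempty)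
    (b : ι → Fin r → ℝ) (hb1 : ∀ i l, l ∈ T → 0 < b i l) (hb0 : ∀ i l, l ∉ T → b i l = 0) :
    ∃ G : Matrix (Fin r) (Fin r) ℝ, G.det ≠ 0 ∧ (∀ i l, 0 < (G⁻¹ *ᵥ b i) l) ∧
      ∀ l ∈ T, ∀ k, 0 < G l k := by
  classical
  set E : Matrix (Fin r) (Fin r) ℝ := Matrix.of fun l k => if l ∉ T ∧ k ∈ T then (1:ℝ) else 0
    with hE
  have hEE : E * E = 0 := by
    ext l k
    rw [Matrix.mul_apply]
    apply Finset.sum_eq_zero
    intro x _
    simp only [hE, Matrix.of_apply]
    by_cases hx : x ∈ T <;> simp [hx]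
  have hprod : (1 - E) * (1 + E) = 1 := by
    rw [sub_mul, mul_add, mul_add, hEE]; simp
  have hdet : (1 - E).det ≠ 0 := by
    intro h
    have := congrArg Matrix.det hprod
    rw [Matrix.det_mul, h] at this
    simp at this
  have hinv : (1 - E)⁻¹ = 1 + E := Matrix.inv_eq_right_inv hprod
  have hpos : ∀ i l, 0 < ((1 - E)⁻¹ *ᵥ b i) l := by
    intro i l
    rw [hinv, Matrix.add_mulVec, Matrix.one_mulVec, Pi.add_apply]
    have hEb : (E *ᵥ b i) l = if l ∈ T then 0 else ∑ k ∈ T, b i k := by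
      simp only [Matrix.mulVec, dotProduct, hE, Matrix.of_apply]
      split_ifs with hl
      · simp [hl]
      · simp [hl, Finset.sum_ite_mem]
    rw [hEb]
    split_ifs with hl
    · simpa using hb1 i l hl
    · rw [hb0 i l hl, zero_add]
      exact Finset.sum_pos (fun k hk => hb1 i k hk) hT
  have hev := eventually_inv_pos b (1 - E) hdet hpos
  have hcont : Tendsto (fun δ : ℝ => (1 - E) + δ • (Matrix.of fun _ _ => (1:ℝ))) (𝓝[>] 0)
      (𝓝 (1 - E)) := by
    have : Continuous (fun δ : ℝ => (1 - E) + δ • (Matrix.of fun (_ _ : Fin r) => (1:ℝ))) := by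
      fun_prop
    have h2 := this.tendsto 0
    simp only [zero_smul, add_zero] at h2
    exact h2.mono_left nhdsWithin_le_nhds
  obtain ⟨δ, ⟨hδ1, hδ2⟩, hδ0⟩ := ((hcont.eventually hev).and self_mem_nhdsWithin).exists
  refine ⟨(1 - E) + δ • (Matrix.of fun _ _ => (1:ℝ)), hδ1, hδ2, ?_⟩
  intro l hl k
  have hδ0' : (0:ℝ) < δ := hδ0
  have : (1 - E) l k = (1 : Matrix (Fin r) (Fin r) ℝ) l k := by
    simp [hE, hl]
  rw [Matrix.add_apply, this, Matrix.smul_apply, Matrix.of_apply, smul_eq_mul, mul_one]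
  by_cases h : l = k
  · subst h; rw [Matrix.one_apply_eq]; linarith
  · rw [Matrix.one_apply_ne h]; linarith

/-- polynomials vanishing near a point of a line vanish on the line -/
lemma eval_eq_zero_of_line {σ : Type*} (p : MvPolynomial σ ℝ) (x y : σ → ℝ)
    (h : ∀ᶠ t in 𝓝 (0:ℝ), MvPolynomial.eval (x + t • (y - x)) p = 0) :
    MvPolynomial.eval y p = 0 := by
  set q : Polynomial ℝ := MvPolynomial.aeval
    (fun s => Polynomial.C (x s) + Polynomial.X * Polynomial.C (y s - x s)) p with hq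
  have hqe : ∀ t : ℝ, q.eval t = MvPolynomial.eval (x + t • (y - x)) p := by
    intro t
    rw [hq, ← Polynomial.coe_evalRingHom, MvPolynomial.aeval_def, MvPolynomial.hom_eval₂]
    rw [MvPolynomial.eval, MvPolynomial.eval₂Hom]
    congr 1
    · ext a; simp
    · ext s; simp
  have hinf : q = 0 := by
    apply Polynomial.eq_zero_of_infinite_isRoot
    have : {t : ℝ | q.IsRoot t} ∈ 𝓝 (0:ℝ) := by
      filter_upwards [h] with t ht
      show q.IsRoot t
      rw [Polynomial.IsRoot, hqe t, ht]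
    exact infinite_of_mem_nhds (0:ℝ) this
  have := hqe 1
  rw [hinf] at this
  simpa using this.symm

end Pool.Agent.H838R3.CS
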