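import Pool.Agent.H838R3.CSMain

namespace Pool.Agent.H838R3.CS

open Matrix Filter Topology

variable {m n r : ℕ}

/-- the set outside the nonnegative rank set, inside the rank variety -/
def Out (m n r : ℕ) : Set (Matrix (Fin m) (Fin n) ℝ) :=
  {N | N.rank ≤ r ∧ ¬ HasNonnegFactorization r N}

lemma claim1 {A : Matrix (Fin m) (Fin r) ℝ} {B : Matrix (Fin r) (Fin (n + 1)) ℝ}
    (hcl : (A, B) ∈ closure {p : Matrix (Fin m) (Fin r) ℝ × Matrix (Fin r) (Fin (n + 1)) ℝ |
      ¬ HasNonnegFactorization r (p.1 * p.2)})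
    {j0 : Fin (n + 1)} {e : Fin r ↪ Fin n} {C : Matrix (Fin r) (Fin r) ℝ} (hC : C.det ≠ 0)
    (h0 : ∀ l, 0 < (C⁻¹ *ᵥ (fun l => B l j0)) l)
    (h1 : ∀ k l, 0 < (C⁻¹ *ᵥ (fun l => B l (j0.succAbove (e k)))) l) :
    A * modB (deleteColumn B j0) e C ∈ closure (Out m n r) := by
  set S : Set (Matrix (Fin m) (Fin r) ℝ × Matrix (Fin r) (Fin (n + 1)) ℝ) :=
    {p | ¬ HasNonnegFactorization r (p.1 * p.2)} with hS
  set F : Matrix (Fin m) (Fin r) ℝ × Matrix (Fin r) (Fin (n + 1)) ℝ → Matrix (Fin m) (Fin n) ℝ :=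
    fun p => p.1 * modB (deleteColumn p.2 j0) e C with hF
  have hFc : Continuous F := by
    refine continuous_fst.matrix_mul ?_
    exact (continuous_modB e).comp
      (((continuous_deleteColumn j0).comp continuous_snd).prodMk continuous_const)
  have hcc : ∀ j : Fin (n + 1), ∀ l : Fin r, Continuous
      (fun p : Matrix (Fin m) (Fin r) ℝ × Matrix (Fin r) (Fin (n + 1)) ℝ =>
        (C⁻¹ *ᵥ (fun l => p.2 l j)) l) := by
    intro j l
    refine (continuous_apply l).comp (continuous_const.matrix_mulVec ?_)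
    exact continuous_pi fun l => continuous_snd.matrix_elem l j
  have hev : ∀ᶠ p in 𝓝 (A, B), (∀ l, 0 ≤ (C⁻¹ *ᵥ (fun l => p.2 l j0)) l) ∧
      (∀ k l, 0 ≤ (C⁻¹ *ᵥ (fun l => p.2 l (j0.succAbove (e k)))) l) := by
    have e1 : ∀ᶠ p in 𝓝 (A, B), ∀ l, 0 ≤ (C⁻¹ *ᵥ (fun l => p.2 l j0)) l := by
      refine eventually_all.2 fun l => ?_
      exact (((hcc j0 l).continuousAt (x := (A, B))).eventually (lt_mem_nhds (h0 l))).mono
        fun p hp => le_of_lt hp
    have e2 : ∀ᶠ p in 𝓝 (A, B), ∀ k l, 0 ≤ (C⁻¹ *ᵥ (fun l => p.2 l (j0.succAbove (e k)))) l := by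
      refine eventually_all.2 fun k => eventually_all.2 fun l => ?_
      exact (((hcc (j0.succAbove (e k)) l).continuousAt (x := (A, B))).eventually
        (lt_mem_nhds (h1 k l))).mono fun p hp => le_of_lt hp
    exact e1.and e2
  have hfr : ∃ᶠ p in 𝓝 (A, B), F p ∈ Out m n r := by
    rw [mem_closure_iff_frequently] at hcl
    refine (hcl.and_eventually hev).mono ?_
    rintro p ⟨hp, hp0, hp1⟩
    exact ⟨rank_mul_le_inner _ _, not_nnf_of_cone hC hp0 hp1 hp⟩
  rw [mem_closure_iff_frequently]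
  exact (hFc.tendsto (A, B)).frequently hfr

lemma main_good {A : Matrix (Fin m) (Fin r) ℝ} {B : Matrix (Fin r) (Fin (n + 1)) ℝ}
    (hA : ∀ i k, 0 ≤ A i k) (hB : ∀ k j, 0 ≤ B k j)
    (hcl : (A, B) ∈ closure {p : Matrix (Fin m) (Fin r) ℝ × Matrix (Fin r) (Fin (n + 1)) ℝ |
      ¬ HasNonnegFactorization r (p.1 * p.2)})
    {j0 : Fin (n + 1)} {e : Fin r ↪ Fin n} {T : Finset (Fin r)} (hT : T.Nonempty)
    (h0 : ∀ l, 0 < B l j0 ↔ l ∈ T) (h1 : ∀ k l, 0 < B l (j0.succAbove (e k)) ↔ l ∈ T) :
    deleteColumn (A * B) j0 ∈ zariskiClosure (Bd m n r) := by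
  intro p hp
  set b : Option (Fin r) → Fin r → ℝ := fun o => match o with
    | none => fun l => B l j0
    | some k => fun l => B l (j0.succAbove (e k)) with hb
  have hb1 : ∀ i l, l ∈ T → 0 < b i l := by
    rintro (_ | k) l hl
    · exact (h0 l).2 hl
    · exact (h1 k l).2 hl
  have hb0 : ∀ i l, l ∉ T → b i l = 0 := by
    rintro (_ | k) l hl
    · exact le_antisymm (not_lt.1 fun h => hl ((h0 l).1 h)) (hB _ _)
    · exact le_antisymm (not_lt.1 fun h => hl ((h1 k l).1 h)) (hB _ _)
  obtain ⟨G0, hG1, hG2, hG3⟩ := exists_G0 T hT b hb1 hb0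
  -- boundary points
  have hbd : ∀ G : Matrix (Fin r) (Fin r) ℝ, G.det ≠ 0 → (∀ i l, 0 < (G⁻¹ *ᵥ b i) l) →
      (∀ l ∈ T, ∀ k, 0 < G l k) → A * modB (deleteColumn B j0) e (DG T 0 G) ∈ Bd m n r := by
    intro G g1 g2 g3
    refine ⟨⟨A, _, hA, ?_, rfl⟩, ?_⟩
    · intro l j
      by_cases hj : ∃ k, e k = j
      · obtain ⟨k, rfl⟩ := hj
        rw [modB_apply_emb]
        simp only [DG, Matrix.of_apply]
        split_ifs with hl
        · rw [one_mul]; exact (g3 l hl k).le
        · rw [zero_mul]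
      · rw [modB_apply_of_notMem _ _ _ _ hj]
        exact hB _ _
    · have hη : ∀ η : ℝ, 0 < η →
          A * modB (deleteColumn B j0) e (DG T η G) ∈ closure (Out m n r) := by
        intro η hη
        have hd := det_DG_ne_zero T hη.ne' g1
        have hinv : ∀ i, (DG T η G)⁻¹ *ᵥ b i = G⁻¹ *ᵥ b i := by
          intro i
          have hGv : G *ᵥ (G⁻¹ *ᵥ b i) = b i := by
            rw [Matrix.mulVec_mulVec, Matrix.mul_nonsing_inv _ (isUnit_iff_ne_zero.2 g1),
              Matrix.one_mulVec]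
          have h3 := DG_mulVec T (η := η) (hb0 i) hGv
          calc (DG T η G)⁻¹ *ᵥ b i = (DG T η G)⁻¹ *ᵥ (DG T η G *ᵥ (G⁻¹ *ᵥ b i)) := by rw [h3]
            _ = G⁻¹ *ᵥ b i := by
              rw [Matrix.mulVec_mulVec, Matrix.nonsing_inv_mul _ (isUnit_iff_ne_zero.2 hd),
                Matrix.one_mulVec]
        refine claim1 hcl hd ?_ ?_
        · intro l
          have := hinv none
          simp only [hb] at this
          rw [this]
          exact g2 none l
        · intro k l
          have := hinv (some k)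
          simp only [hb] at this
          rw [this]
          exact g2 (some k) l
      have hcont : Continuous (fun η : ℝ => A * modB (deleteColumn B j0) e (DG T η G)) := by
        refine continuous_const.matrix_mul ?_
        refine (continuous_modB e).comp (continuous_const.prodMk ?_)
        refine continuous_matrix fun l k => ?_
        simp only [DG, Matrix.of_apply]
        split_ifs
        · exact continuous_const
        · exact continuous_id.mul continuous_const
      have ht := (hcont.tendsto 0).mono_left (nhdsWithin_le_nhds (s := Set.Ioi (0:ℝ)))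
      have := mem_closure_of_tendsto ht (eventually_of_mem self_mem_nhdsWithin hη)
      rwa [closure_closure] at this
  -- the target
  set G1 : Matrix (Fin r) (Fin r) ℝ := Matrix.of fun l k => B l (j0.succAbove (e k)) with hG1def
  have htarget : A * modB (deleteColumn B j0) e (DG T 0 G1) = deleteColumn (A * B) j0 := by
    have : modB (deleteColumn B j0) e (DG T 0 G1) = deleteColumn B j0 := by
      ext l j
      by_cases hj : ∃ k, e k = j
      · obtain ⟨k, rfl⟩ := hj
        rw [modB_apply_emb]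
        simp only [DG, Matrix.of_apply, hG1def, deleteColumn]
        split_ifs with hl
        · rw [one_mul]
        · rw [zero_mul]
          exact (hb0 (some k) l hl).symm
      · rw [modB_apply_of_notMem _ _ _ _ hj]
    rw [this]
    ext i j
    simp [deleteColumn, Matrix.mul_apply]
  rw [← htarget]
  apply eval_eq_zero_of_line p
    (fun ij => (A * modB (deleteColumn B j0) e (DG T 0 G0)) ij.1 ij.2)
  have hline : Tendsto (fun t : ℝ => G0 + t • (G1 - G0)) (𝓝 0) (𝓝 G0) := by
    have : Continuous (fun t : ℝ => G0 + t • (G1 - G0)) := by fun_prop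
    have h2 := this.tendsto 0
    simpa using h2
  have hev1 := hline.eventually (eventually_inv_pos b G0 hG1 hG2)
  have hev2 : ∀ᶠ t : ℝ in 𝓝 0, ∀ l ∈ T, ∀ k, 0 < (G0 + t • (G1 - G0)) l k := by
    refine hline.eventually (p := fun G => ∀ l ∈ T, ∀ k, 0 < G l k) ?_
    have : ∀ l : Fin r, ∀ k : Fin r, ∀ᶠ G : Matrix (Fin r) (Fin r) ℝ in 𝓝 G0,
        l ∈ T → 0 < G l k := by
      intro l k
      by_cases hl : l ∈ T
      · exact ((((continuous_id.matrix_elem l k).continuousAt (x := G0))).eventually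
          (lt_mem_nhds (hG3 l hl k))).mono fun G hG _ => hG
      · exact Eventually.of_forall fun G h => absurd h hl
    filter_upwards [eventually_all.2 fun l => eventually_all.2 fun k => this l k] with G hG
    intro l hl k
    exact hG l k hl
  filter_upwards [hev1, hev2] with t ht1 ht2
  have hkey := hp _ (hbd _ ht1.1 ht1.2 ht2)
  have hfun : ((fun ij : Fin m × Fin n =>
        (A * modB (deleteColumn B j0) e (DG T 0 G0)) ij.1 ij.2) +
      t • ((fun ij : Fin m × Fin n => (A * modB (deleteColumn B j0) e (DG T 0 G1)) ij.1 ij.2) -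
        fun ij : Fin m × Fin n => (A * modB (deleteColumn B j0) e (DG T 0 G0)) ij.1 ij.2)) =
      fun ij : Fin m × Fin n =>
        (A * modB (deleteColumn B j0) e (DG T 0 (G0 + t • (G1 - G0)))) ij.1 ij.2 := by
    ext ⟨i, j⟩
    simp only [Pi.add_apply, Pi.smul_apply, Pi.sub_apply, smul_eq_mul, Matrix.mul_apply]
    rw [← Finset.sum_sub_distrib, Finset.mul_sum, ← Finset.sum_add_distrib]
    refine Finset.sum_congr rfl fun l _ => ?_
    by_cases hj : ∃ k, e k = j
    · obtain ⟨k, rfl⟩ := hj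
      simp only [modB_apply_emb]
      simp only [DG, Matrix.of_apply, Matrix.add_apply, Matrix.smul_apply, Matrix.sub_apply,
        smul_eq_mul]
      ring
    · simp only [modB_apply_of_notMem _ _ _ _ hj]
      ring
  rw [hfun]
  exact hkey

end Pool.Agent.H838R3.CS
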