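import Pool.Agent.H838R3.CSMain2

namespace Pool.Agent.H838R3.CS

open Matrix Filter Topology

variable {m n r : ℕ}

lemma exists_factor_of_le {s t : ℕ} (hst : s ≤ t) {M : Matrix (Fin m) (Fin n) ℝ}
    (h : ∃ (X : Matrix (Fin m) (Fin s) ℝ) (Y : Matrix (Fin s) (Fin n) ℝ), M = X * Y) :
    ∃ (X : Matrix (Fin m) (Fin t) ℝ) (Y : Matrix (Fin t) (Fin n) ℝ), M = X * Y := by
  induction t, hst using Nat.le_induction with
  | base => exact h
  | succ t _ ih =>
    obtain ⟨X, Y, rfl⟩ := ih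
    refine ⟨Matrix.of fun i => (Fin.snoc (X i) 0 : Fin (t+1) → ℝ),
      Matrix.of fun k j => (Fin.snoc (fun k => Y k j) 0 : Fin (t+1) → ℝ) k, ?_⟩
    ext i j
    rw [Matrix.mul_apply, Matrix.mul_apply, Fin.sum_univ_castSucc]
    simp

lemma exists_factor_rank (M : Matrix (Fin m) (Fin n) ℝ) :
    ∃ (X : Matrix (Fin m) (Fin M.rank) ℝ) (Y : Matrix (Fin M.rank) (Fin n) ℝ), M = X * Y := by
  set W := LinearMap.range M.mulVecLin with hW
  have hrk : Module.finrank ℝ W = M.rank := rfl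
  let b : Module.Basis (Fin M.rank) ℝ W := Module.finBasisOfFinrankEq ℝ W hrk
  have hmem : ∀ j : Fin n, M.mulVecLin (Pi.single j 1) ∈ W := fun j => ⟨_, rfl⟩
  refine ⟨Matrix.of fun i k => (b k : Fin m → ℝ) i,
    Matrix.of fun k j => b.repr ⟨_, hmem j⟩ k, ?_⟩
  ext i j
  have h1 := b.sum_repr ⟨_, hmem j⟩
  have h2 := congrArg (fun w : W => (w : Fin m → ℝ) i) h1
  have h3 : (M.mulVecLin (Pi.single j 1)) i = M i j := by
    simp
  simp only [Submodule.coe_sum, Finset.sum_apply, Submodule.coe_smul, Pi.smul_apply,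
    smul_eq_mul] at h2
  rw [Matrix.mul_apply, ← h3, ← h2]
  refine Finset.sum_congr rfl fun k _ => ?_
  rw [Matrix.of_apply, Matrix.of_apply, mul_comm]

lemma exists_factor {M : Matrix (Fin m) (Fin n) ℝ} (h : M.rank ≤ r) :
    ∃ (X : Matrix (Fin m) (Fin r) ℝ) (Y : Matrix (Fin r) (Fin n) ℝ), M = X * Y :=
  exists_factor_of_le h (exists_factor_rank M)

lemma exists_right_inv {B : Matrix (Fin r) (Fin n) ℝ} (h : r ≤ B.rank) :
    ∃ R : Matrix (Fin n) (Fin r) ℝ, B * R = 1 := by
  rw [← Matrix.mulVec_surjective_iff_exists_right_inverse]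
  have hr : LinearMap.range B.mulVecLin = ⊤ := by
    apply Submodule.eq_top_of_finrank_eq
    rw [Module.finrank_fin_fun]
    exact le_antisymm (B.rank_le_height) h
  intro v
  have : v ∈ LinearMap.range B.mulVecLin := by rw [hr]; trivial
  exact this

lemma exists_left_inv {A : Matrix (Fin m) (Fin r) ℝ} (h : r ≤ A.rank) :
    ∃ L : Matrix (Fin r) (Fin m) ℝ, L * A = 1 := by
  rw [← Matrix.rank_transpose] at h
  obtain ⟨R, hR⟩ := exists_right_inv h
  refine ⟨Rᵀ, ?_⟩
  rw [← Matrix.transpose_transpose A, ← Matrix.transpose_mul, hR, Matrix.transpose_one]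

/-- rank factorization identity -/
lemma factor_identity {N : Matrix (Fin m) (Fin n) ℝ} (hN : N.rank ≤ r)
    {L : Matrix (Fin r) (Fin m) ℝ} {R : Matrix (Fin n) (Fin r) ℝ}
    (h : (L * N * R).det ≠ 0) : N * R * ((L * N * R)⁻¹ * (L * N)) = N := by
  obtain ⟨X, Y, rfl⟩ := exists_factor hN
  have hLX : (L * X).det ≠ 0 := by
    intro h0
    apply h
    rw [← Matrix.mul_assoc, Matrix.mul_assoc, Matrix.det_mul, h0, zero_mul]
  have hYR : (Y * R).det ≠ 0 := by
    intro h0
    apply h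
    rw [← Matrix.mul_assoc, Matrix.mul_assoc, Matrix.det_mul, h0, mul_zero]
  have e1 : L * (X * Y) * R = (L * X) * (Y * R) := by simp only [Matrix.mul_assoc]
  rw [e1, Matrix.mul_inv_rev]
  have e2 : X * Y * R * ((Y * R)⁻¹ * (L * X)⁻¹ * (L * (X * Y))) =
      X * ((Y * R) * (Y * R)⁻¹) * ((L * X)⁻¹ * (L * X)) * Y := by
    simp only [Matrix.mul_assoc]
  rw [e2, Matrix.mul_nonsing_inv _ (isUnit_iff_ne_zero.2 hYR),
    Matrix.nonsing_inv_mul _ (isUnit_iff_ne_zero.2 hLX)]
  simp

lemma good_of_rank_eq {A : Matrix (Fin m) (Fin r) ℝ} {B : Matrix (Fin r) (Fin n) ℝ}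
    (hr : r ≤ (A * B).rank) (hcl : A * B ∈ closure (Out m n r)) :
    (A, B) ∈ closure {p : Matrix (Fin m) (Fin r) ℝ × Matrix (Fin r) (Fin n) ℝ |
      ¬ HasNonnegFactorization r (p.1 * p.2)} := by
  obtain ⟨L, hL⟩ := exists_left_inv (hr.trans (Matrix.rank_mul_le_left A B))
  obtain ⟨R, hR⟩ := exists_right_inv (hr.trans (Matrix.rank_mul_le_right A B))
  set F : Matrix (Fin m) (Fin n) ℝ → Matrix (Fin m) (Fin r) ℝ × Matrix (Fin r) (Fin n) ℝ :=
    fun N => (N * R, (L * N * R)⁻¹ * (L * N)) with hF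
  have hLNR : L * (A * B) * R = 1 := by
    calc L * (A * B) * R = (L * A) * (B * R) := by simp only [Matrix.mul_assoc]
      _ = 1 := by rw [hL, hR, Matrix.one_mul]
  have hFM : F (A * B) = (A, B) := by
    simp only [hF]
    rw [hLNR, Matrix.mul_assoc, hR, Matrix.mul_one, inv_one, Matrix.one_mul, ← Matrix.mul_assoc,
      hL, Matrix.one_mul]
  have hcL : Continuous (fun N : Matrix (Fin m) (Fin n) ℝ => L * N * R) :=
    (continuous_const.matrix_mul continuous_id).matrix_mul continuous_const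
  have hdet : (L * (A * B) * R).det ≠ 0 := by rw [hLNR]; simp
  have hFc : ContinuousAt F (A * B) := by
    refine ContinuousAt.prodMk ?_ ?_
    · exact (continuous_id.matrix_mul continuous_const).continuousAt
    · have hi : ContinuousAt (fun N : Matrix (Fin m) (Fin n) ℝ => (L * N * R)⁻¹) (A * B) := by
        have : ContinuousAt (fun G : Matrix (Fin r) (Fin r) ℝ => G⁻¹) (L * (A * B) * R) := by
          apply continuousAt_matrix_inv
          have : (Ring.inverse : ℝ → ℝ) = fun x => x⁻¹ := by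
            ext x; exact Ring.inverse_eq_inv x
          rw [this]
          exact continuousAt_inv₀ hdet
        exact ContinuousAt.comp (g := fun G : Matrix (Fin r) (Fin r) ℝ => G⁻¹) this
          hcL.continuousAt
      have hj : ContinuousAt (fun N : Matrix (Fin m) (Fin n) ℝ => L * N) (A * B) :=
        (continuous_const.matrix_mul continuous_id).continuousAt
      have hmul : Continuous (fun p : Matrix (Fin r) (Fin r) ℝ × Matrix (Fin r) (Fin n) ℝ =>
          p.1 * p.2) := continuous_fst.matrix_mul continuous_snd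
      exact hmul.continuousAt.comp (hi.prodMk hj)
  rw [mem_closure_iff_frequently] at hcl ⊢
  have hev : ∀ᶠ N in 𝓝 (A * B), (L * N * R).det ≠ 0 :=
    (hcL.matrix_det.continuousAt (x := A * B)).eventually_ne hdet
  have : ∃ᶠ N in 𝓝 (A * B), ¬ HasNonnegFactorization r ((F N).1 * (F N).2) := by
    refine (hcl.and_eventually hev).mono ?_
    rintro N ⟨⟨hN1, hN2⟩, hN3⟩
    simp only [hF]
    rw [factor_identity hN1 hN3]
    exact hN2
  have h2 := hFc.tendsto.frequently (p := fun p : Matrix (Fin m) (Fin r) ℝ ×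
    Matrix (Fin r) (Fin n) ℝ => ¬ HasNonnegFactorization r (p.1 * p.2)) this
  rwa [hFM] at h2

end Pool.Agent.H838R3.CS
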