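import Pool.Agent.H838R3.CSRank

namespace Pool.Agent.H838R3.CS

open Matrix Filter Topology

variable {m n r ρ : ℕ}

lemma rank_add_le' (E F : Matrix (Fin m) (Fin n) ℝ) : (E + F).rank ≤ E.rank + F.rank := by
  have h1 : LinearMap.range (E + F).mulVecLin ≤
      LinearMap.range E.mulVecLin ⊔ LinearMap.range F.mulVecLin := by
    rintro _ ⟨v, rfl⟩
    rw [Matrix.mulVecLin_add, LinearMap.add_apply]
    exact Submodule.add_mem_sup ⟨v, rfl⟩ ⟨v, rfl⟩
  calc (E + F).rank = Module.finrank ℝ (LinearMap.range (E + F).mulVecLin) := rfl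
    _ ≤ Module.finrank ℝ ↥(LinearMap.range E.mulVecLin ⊔ LinearMap.range F.mulVecLin) :=
        Submodule.finrank_mono h1
    _ ≤ _ := Submodule.finrank_add_le_finrank_add_finrank _ _

/-- additivity of rank, lower bound -/
lemma rank_ge_of_split {L : Matrix (Fin ρ) (Fin m) ℝ} {R : Matrix (Fin n) (Fin ρ) ℝ}
    {C : Matrix (Fin m) (Fin ρ) ℝ} {D : Matrix (Fin ρ) (Fin n) ℝ} {E : Matrix (Fin m) (Fin n) ℝ}
    (hLE : L * E = 0) (hER : E * R = 0) (hLC : (L * C).det ≠ 0) (hDR : (D * R).det ≠ 0) :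
    ρ + E.rank ≤ (C * D + E).rank := by
  set F := C * D + E with hF
  have hLCinj : ∀ a : Fin ρ → ℝ, (L * C) *ᵥ a = 0 → a = 0 := by
    intro a ha
    have := congrArg (fun v => (L * C)⁻¹ *ᵥ v) ha
    simp only [Matrix.mulVec_mulVec, Matrix.mulVec_zero] at this
    rwa [Matrix.nonsing_inv_mul _ (isUnit_iff_ne_zero.2 hLC), Matrix.one_mulVec] at this
  -- rank of C
  have hCrank : ρ ≤ C.rank := by
    have h1 : (L * C).rank = ρ := by
      rw [Matrix.rank_of_isUnit _ ((Matrix.isUnit_iff_isUnit_det _).2 (isUnit_iff_ne_zero.2 hLC))]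
      simp
    calc ρ = (L * C).rank := h1.symm
      _ ≤ C.rank := Matrix.rank_mul_le_right _ _
  have hCF : LinearMap.range C.mulVecLin ≤ LinearMap.range F.mulVecLin := by
    rintro _ ⟨a, rfl⟩
    refine ⟨R *ᵥ ((D * R)⁻¹ *ᵥ a), ?_⟩
    rw [Matrix.mulVecLin_apply, Matrix.mulVecLin_apply, Matrix.mulVec_mulVec,
      Matrix.mulVec_mulVec, hF, Matrix.add_mul, hER, add_zero, Matrix.mul_assoc C D R,
      Matrix.mul_assoc, Matrix.mul_nonsing_inv _ (isUnit_iff_ne_zero.2 hDR), Matrix.mul_one]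
  have hEF : LinearMap.range E.mulVecLin ≤ LinearMap.range F.mulVecLin := by
    rintro _ ⟨b, rfl⟩
    have h1 : E.mulVecLin b = F.mulVecLin b - C.mulVecLin (D *ᵥ b) := by
      simp only [Matrix.mulVecLin_apply, hF, Matrix.add_mulVec, Matrix.mulVec_mulVec]
      abel
    rw [h1]
    exact Submodule.sub_mem _ ⟨b, rfl⟩ (hCF ⟨_, rfl⟩)
  have hdisj : LinearMap.range C.mulVecLin ⊓ LinearMap.range E.mulVecLin = ⊥ := by
    rw [eq_bot_iff]
    rintro v ⟨⟨a, ha⟩, ⟨b, hb⟩⟩
    rw [Matrix.mulVecLin_apply] at ha hb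
    have h1 : L *ᵥ v = 0 := by
      rw [← hb, Matrix.mulVec_mulVec, hLE, Matrix.zero_mulVec]
    rw [← ha, Matrix.mulVec_mulVec] at h1
    rw [Submodule.mem_bot, ← ha, hLCinj a h1, Matrix.mulVec_zero]
  have hsum := Submodule.finrank_sup_add_finrank_inf_eq (LinearMap.range C.mulVecLin)
    (LinearMap.range E.mulVecLin)
  rw [hdisj, finrank_bot, add_zero] at hsum
  have hle : Module.finrank ℝ ↥(LinearMap.range C.mulVecLin ⊔ LinearMap.range E.mulVecLin) ≤
      Module.finrank ℝ (LinearMap.range F.mulVecLin) :=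
    Submodule.finrank_mono (sup_le hCF hEF)
  have e1 : C.rank = Module.finrank ℝ (LinearMap.range C.mulVecLin) := rfl
  have e2 : E.rank = Module.finrank ℝ (LinearMap.range E.mulVecLin) := rfl
  have e3 : F.rank = Module.finrank ℝ (LinearMap.range F.mulVecLin) := rfl
  omega

lemma rank_pos_of_ne_zero {E : Matrix (Fin m) (Fin n) ℝ} (h : E ≠ 0) : 0 < E.rank := by
  rw [Nat.pos_iff_ne_zero]
  intro h0
  apply h
  have h1 : Module.finrank ℝ (LinearMap.range E.mulVecLin) = 0 := h0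
  rw [Submodule.finrank_eq_zero, LinearMap.range_eq_bot] at h1
  ext i j
  have h2 := congrFun (congrArg (fun f => f (Pi.single j (1:ℝ))) h1) i
  simpa using h2

/-- along a path staying away from boundary points, the property of having a nonnegative
factorization is constant -/
lemma path_lemma {γ : ℝ → Matrix (Fin m) (Fin n) ℝ} (hγ : Continuous γ)
    (h : ∀ t ∈ Set.Icc (0:ℝ) 1, (γ t).rank ≤ r ∧ γ t ∉ Bd m n r) :
    HasNonnegFactorization r (γ 0) ↔ HasNonnegFactorization r (γ 1) := by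
  have key : ∀ a ∈ Set.Icc (0:ℝ) 1, ∀ b ∈ Set.Icc (0:ℝ) 1, HasNonnegFactorization r (γ a) →
      HasNonnegFactorization r (γ b) := by
    intro a ha b hb hga
    by_contra hgb
    set t1 : Set ℝ := {x | HasNonnegFactorization r (γ x)} with ht1
    set t2 : Set ℝ := closure {x | x ∈ Set.Icc (0:ℝ) 1 ∧ ¬ HasNonnegFactorization r (γ x)} with ht2
    have c1 : IsClosed t1 := isClosed_hasNonnegFactorization.preimage hγ
    have c2 : IsClosed t2 := isClosed_closure
    obtain ⟨x, hx, hx1, hx2⟩ := (isPreconnected_closed_iff.1 (isPreconnected_Icc (a := (0:ℝ))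
      (b := 1))) t1 t2 c1 c2 (by
        intro x hx
        by_cases hh : HasNonnegFactorization r (γ x)
        · exact Or.inl hh
        · exact Or.inr (subset_closure ⟨hx, hh⟩)) ⟨a, ha, hga⟩
        ⟨b, hb, subset_closure ⟨hb, hgb⟩⟩
    apply (h x hx).2
    refine ⟨hx1, ?_⟩
    have h3 : γ x ∈ γ '' closure {x | x ∈ Set.Icc (0:ℝ) 1 ∧ ¬ HasNonnegFactorization r (γ x)} :=
      ⟨x, hx2, rfl⟩
    refine closure_mono ?_ (image_closure_subset_closure_image hγ h3)
    rintro _ ⟨y, ⟨hy1, hy2⟩, rfl⟩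
    exact ⟨(h y hy1).1, hy2⟩
  exact ⟨key 0 (by simp) 1 (by simp), key 1 (by simp) 0 (by simp)⟩

/-- two nonzero vectors of a subspace of dimension at least two can be joined by two segments
avoiding zero -/
lemma connect_nonzero {k : ℕ} (K : Submodule ℝ (Fin k → ℝ)) (hK : 2 ≤ Module.finrank ℝ K)
    {x x' : Fin k → ℝ} (hx' : x' ∈ K) (h0 : x ≠ 0) (h0' : x' ≠ 0) :
    ∃ w ∈ K, (∀ t : ℝ, (1 - t) • x + t • w ≠ 0) ∧ (∀ t : ℝ, (1 - t) • w + t • x' ≠ 0) := by
  -- first find a vector outside the span of x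
  have hnot : ¬ K ≤ Submodule.span ℝ {x} := by
    intro hle
    have h1 := Submodule.finrank_mono hle
    rw [finrank_span_singleton h0] at h1
    omega
  obtain ⟨w, hwK, hw⟩ := SetLike.not_le_iff_exists.1 hnot
  have aux : ∀ u v : Fin k → ℝ, u ≠ 0 → v ∉ Submodule.span ℝ {u} →
      ∀ t : ℝ, (1 - t) • u + t • v ≠ 0 := by
    intro u v hu hv t ht
    by_cases h : t = 0
    · subst h; simp at ht; exact hu ht
    · apply hv
      rw [Submodule.mem_span_singleton]
      refine ⟨-(t⁻¹ * (1 - t)), ?_⟩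
      have h2 : t • v = -((1 - t) • u) := by
        rw [eq_neg_iff_add_eq_zero, add_comm]; exact ht
      have h3 : v = t⁻¹ • (t • v) := by rw [smul_smul, inv_mul_cancel₀ h, one_smul]
      rw [h3, h2, smul_neg, smul_smul, neg_smul]
  have aux2 : ∀ u v : Fin k → ℝ, v ≠ 0 → u ∉ Submodule.span ℝ {v} →
      ∀ t : ℝ, (1 - t) • u + t • v ≠ 0 := by
    intro u v hv hu t ht
    apply aux v u hv hu (1 - t)
    rw [sub_sub_cancel, add_comm]
    exact ht
  by_cases hxx : x' ∈ Submodule.span ℝ {x}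
  · refine ⟨w, hwK, aux x w h0 hw, aux2 w x' h0' ?_⟩
    intro hw'
    apply hw
    have : Submodule.span ℝ {x'} ≤ Submodule.span ℝ {x} := by
      rw [Submodule.span_singleton_le_iff_mem]; exact hxx
    exact this hw'
  · refine ⟨x', hx', aux x x' h0 hxx, fun t => ?_⟩
    rw [← add_smul]
    simpa using h0'

lemma ker_finrank {k ρ : ℕ} (L : Matrix (Fin ρ) (Fin k) ℝ) (h : ρ + 2 ≤ k) :
    2 ≤ Module.finrank ℝ (LinearMap.ker L.mulVecLin) := by
  have h1 := LinearMap.finrank_range_add_finrank_ker L.mulVecLin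
  have h2 : Module.finrank ℝ (LinearMap.range L.mulVecLin) ≤ ρ := by
    have := Submodule.finrank_le (LinearMap.range L.mulVecLin)
    simpa using this
  rw [Module.finrank_fin_fun] at h1
  omega

lemma vecMulVec_ne_zero' {x : Fin m → ℝ} {y : Fin n → ℝ} (hx : x ≠ 0) (hy : y ≠ 0) :
    Matrix.vecMulVec x y ≠ 0 := by
  obtain ⟨i, hi⟩ := Function.ne_iff.1 hx
  obtain ⟨j, hj⟩ := Function.ne_iff.1 hy
  intro h
  have := congrFun (congrFun h i) j
  simp only [Matrix.vecMulVec_apply, Matrix.zero_apply, mul_eq_zero] at this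
  rcases this with h | h
  · exact hi h
  · exact hj h

end Pool.Agent.H838R3.CS
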