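import Pool.Agent.H838R3.CSStepA

namespace Pool.Agent.H838R3.CS

open Matrix Filter Topology
open scoped Matrix.Norms.Elementwise

variable {m n r ρ : ℕ}

/-- local data around a rank deficient matrix `C * D` -/
structure Loc (r : ℕ) (L : Matrix (Fin ρ) (Fin m) ℝ) (R : Matrix (Fin n) (Fin ρ) ℝ)
    (C : Matrix (Fin m) (Fin ρ) ℝ) (D : Matrix (Fin ρ) (Fin n) ℝ) (δ : ℝ) : Prop where
  lt : ρ < r
  pos : 0 < δ
  LC : ∀ C' ∈ Metric.ball C δ, (L * C').det ≠ 0
  DR : ∀ D' ∈ Metric.ball D δ, (D' * R).det ≠ 0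
  nb : ∀ C' ∈ Metric.ball C δ, ∀ D' ∈ Metric.ball D δ,
    ∀ E ∈ Metric.ball (0 : Matrix (Fin m) (Fin n) ℝ) δ,
      C' * D' + E ∈ Bd m n r → (C' * D' + E).rank ≤ ρ

section

variable {L : Matrix (Fin ρ) (Fin m) ℝ} {R : Matrix (Fin n) (Fin ρ) ℝ}
  {C : Matrix (Fin m) (Fin ρ) ℝ} {D : Matrix (Fin ρ) (Fin n) ℝ} {δ : ℝ}

lemma seg (h : Loc r L R C D δ)
    {C1 C2 : Matrix (Fin m) (Fin ρ) ℝ} {D1 D2 : Matrix (Fin ρ) (Fin n) ℝ}
    {E1 E2 : Matrix (Fin m) (Fin n) ℝ}
    (hC1 : C1 ∈ Metric.ball C δ) (hC2 : C2 ∈ Metric.ball C δ)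
    (hD1 : D1 ∈ Metric.ball D δ) (hD2 : D2 ∈ Metric.ball D δ)
    (hE1 : E1 ∈ Metric.ball (0 : Matrix (Fin m) (Fin n) ℝ) δ)
    (hE2 : E2 ∈ Metric.ball (0 : Matrix (Fin m) (Fin n) ℝ) δ)
    (hL1 : L * E1 = 0) (hL2 : L * E2 = 0) (hR1 : E1 * R = 0) (hR2 : E2 * R = 0)
    (hr : ∀ t ∈ Set.Icc (0:ℝ) 1, ((1 - t) • E1 + t • E2).rank ≤ r - ρ ∧
      (1 - t) • E1 + t • E2 ≠ 0) :
    HasNonnegFactorization r (C1 * D1 + E1) ↔ HasNonnegFactorization r (C2 * D2 + E2) := by
  set γ : ℝ → Matrix (Fin m) (Fin n) ℝ := fun t =>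
    ((1 - t) • C1 + t • C2) * ((1 - t) • D1 + t • D2) + ((1 - t) • E1 + t • E2) with hγ
  have hc : Continuous γ := by
    have c1 : Continuous (fun t : ℝ => (1 - t) • C1 + t • C2) := by fun_prop
    have c2 : Continuous (fun t : ℝ => (1 - t) • D1 + t • D2) := by fun_prop
    have c3 : Continuous (fun t : ℝ => (1 - t) • E1 + t • E2) := by fun_prop
    exact (c1.matrix_mul c2).add c3
  have hmain := path_lemma (r := r) hc (by
    intro t ht
    have ht0 : 0 ≤ t := ht.1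
    have ht1 : 0 ≤ 1 - t := by linarith [ht.2]
    have b1 := convex_ball C δ hC1 hC2 ht1 ht0 (by ring)
    have b2 := convex_ball D δ hD1 hD2 ht1 ht0 (by ring)
    have b3 := convex_ball (0 : Matrix (Fin m) (Fin n) ℝ) δ hE1 hE2 ht1 ht0 (by ring)
    obtain ⟨r1, r2⟩ := hr t ht
    have hlt := h.lt
    constructor
    · refine (rank_add_le' _ _).trans ?_
      have := rank_mul_le_inner ((1 - t) • C1 + t • C2) ((1 - t) • D1 + t • D2)
      omega
    · intro hbd
      have h1 := h.nb _ b1 _ b2 _ b3 hbd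
      have h2 := rank_ge_of_split (L := L) (R := R) (C := (1 - t) • C1 + t • C2)
        (D := (1 - t) • D1 + t • D2) (E := (1 - t) • E1 + t • E2)
        (by rw [Matrix.mul_add, Matrix.mul_smul, Matrix.mul_smul, hL1, hL2]; simp)
        (by rw [Matrix.add_mul, Matrix.smul_mul, Matrix.smul_mul, hR1, hR2]; simp)
        (h.LC _ b1) (h.DR _ b2)
      have h3 := rank_pos_of_ne_zero r2
      omega)
  simpa [hγ] using hmain

lemma eventually_small (h : 0 < δ) (E : Matrix (Fin m) (Fin n) ℝ) :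
    ∀ᶠ s : ℝ in 𝓝[>] 0, s • E ∈ Metric.ball (0 : Matrix (Fin m) (Fin n) ℝ) δ := by
  have hc : Continuous (fun s : ℝ => s • E) := by fun_prop
  have h1 := (hc.tendsto 0).mono_left (nhdsWithin_le_nhds (s := Set.Ioi (0:ℝ)))
  rw [zero_smul] at h1
  exact h1.eventually (Metric.ball_mem_nhds _ h)

lemma moveSeg (h : Loc r L R C D δ) {E1 E2 : Matrix (Fin m) (Fin n) ℝ}
    (hL1 : L * E1 = 0) (hL2 : L * E2 = 0) (hR1 : E1 * R = 0) (hR2 : E2 * R = 0)
    (hr : ∀ t ∈ Set.Icc (0:ℝ) 1, ((1 - t) • E1 + t • E2).rank ≤ r - ρ ∧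
      (1 - t) • E1 + t • E2 ≠ 0) :
    ∀ᶠ s : ℝ in 𝓝[>] 0, (HasNonnegFactorization r (C * D + s • E1) ↔
      HasNonnegFactorization r (C * D + s • E2)) := by
  filter_upwards [eventually_small h.pos E1, eventually_small h.pos E2, self_mem_nhdsWithin]
    with s h1 h2 hs
  have hs0 : (0:ℝ) < s := hs
  refine seg h (Metric.mem_ball_self h.pos) (Metric.mem_ball_self h.pos)
    (Metric.mem_ball_self h.pos) (Metric.mem_ball_self h.pos) h1 h2
    (by rw [Matrix.mul_smul, hL1, smul_zero]) (by rw [Matrix.mul_smul, hL2, smul_zero])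
    (by rw [Matrix.smul_mul, hR1, smul_zero]) (by rw [Matrix.smul_mul, hR2, smul_zero]) ?_
  intro t ht
  obtain ⟨r1, r2⟩ := hr t ht
  have e1 : (1 - t) • s • E1 + t • s • E2 = s • ((1 - t) • E1 + t • E2) := by
    rw [smul_add, smul_smul, smul_smul, smul_smul, smul_smul, mul_comm s, mul_comm s]
  rw [e1]
  refine ⟨?_, smul_ne_zero hs0.ne' r2⟩
  have e2 : s • ((1 - t) • E1 + t • E2) = (s • (1 : Matrix (Fin m) (Fin m) ℝ)) *
      ((1 - t) • E1 + t • E2) := by
    rw [Matrix.smul_mul, Matrix.one_mul]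
  rw [e2]
  exact (Matrix.rank_mul_le_right _ _).trans r1

lemma mul_vecMulVec_zero {x : Fin m → ℝ} (y : Fin n → ℝ) (hx : L *ᵥ x = 0) :
    L * Matrix.vecMulVec x y = 0 := by
  ext i j
  have := congrFun hx i
  simp only [Matrix.mulVec, dotProduct, Pi.zero_apply] at this
  simp only [Matrix.mul_apply, Matrix.vecMulVec_apply, Matrix.zero_apply]
  rw [← zero_mul (y j), ← this, Finset.sum_mul]
  exact Finset.sum_congr rfl fun k _ => by ring

lemma vecMulVec_mul_zero (x : Fin m → ℝ) {y : Fin n → ℝ} (hy : Rᵀ *ᵥ y = 0) :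
    Matrix.vecMulVec x y * R = 0 := by
  ext i j
  have := congrFun hy j
  simp only [Matrix.mulVec, dotProduct, Pi.zero_apply, Matrix.transpose_apply] at this
  simp only [Matrix.mul_apply, Matrix.vecMulVec_apply, Matrix.zero_apply]
  rw [← mul_zero (x i), ← this, Finset.mul_sum]
  exact Finset.sum_congr rfl fun k _ => by ring

lemma rank_vecMulVec_le' (h : ρ < r) (x : Fin m → ℝ) (y : Fin n → ℝ) :
    (Matrix.vecMulVec x y).rank ≤ r - ρ :=
  (Matrix.rank_vecMulVec_le x y).trans (by omega)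

lemma move_left (h : Loc r L R C D δ) {x x' : Fin m → ℝ} {y : Fin n → ℝ}
    (hx : L *ᵥ x = 0) (hx' : L *ᵥ x' = 0) (hy : Rᵀ *ᵥ y = 0) (hy0 : y ≠ 0)
    (ht : ∀ t : ℝ, (1 - t) • x + t • x' ≠ 0) :
    ∀ᶠ s : ℝ in 𝓝[>] 0, (HasNonnegFactorization r (C * D + s • Matrix.vecMulVec x y) ↔
      HasNonnegFactorization r (C * D + s • Matrix.vecMulVec x' y)) := by
  refine moveSeg h (mul_vecMulVec_zero y hx) (mul_vecMulVec_zero y hx')
    (vecMulVec_mul_zero x hy) (vecMulVec_mul_zero x' hy) fun t _ => ?_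
  have e : (1 - t) • Matrix.vecMulVec x y + t • Matrix.vecMulVec x' y =
      Matrix.vecMulVec ((1 - t) • x + t • x') y := by
    ext i j
    simp [Matrix.vecMulVec_apply]
    ring
  rw [e]
  exact ⟨rank_vecMulVec_le' h.lt _ _, vecMulVec_ne_zero' (ht t) hy0⟩

lemma move_right (h : Loc r L R C D δ) {x : Fin m → ℝ} {y y' : Fin n → ℝ}
    (hx : L *ᵥ x = 0) (hy : Rᵀ *ᵥ y = 0) (hy' : Rᵀ *ᵥ y' = 0) (hx0 : x ≠ 0)
    (ht : ∀ t : ℝ, (1 - t) • y + t • y' ≠ 0) :
    ∀ᶠ s : ℝ in 𝓝[>] 0, (HasNonnegFactorization r (C * D + s • Matrix.vecMulVec x y) ↔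
      HasNonnegFactorization r (C * D + s • Matrix.vecMulVec x y')) := by
  refine moveSeg h (mul_vecMulVec_zero y hx) (mul_vecMulVec_zero y' hx)
    (vecMulVec_mul_zero x hy) (vecMulVec_mul_zero x hy') fun t _ => ?_
  have e : (1 - t) • Matrix.vecMulVec x y + t • Matrix.vecMulVec x y' =
      Matrix.vecMulVec x ((1 - t) • y + t • y') := by
    ext i j
    simp [Matrix.vecMulVec_apply]
    ring
  rw [e]
  exact ⟨rank_vecMulVec_le' h.lt _ _, vecMulVec_ne_zero' hx0 (ht t)⟩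

lemma move (h : Loc r L R C D δ) (hm : ρ + 2 ≤ m) (hn : ρ + 2 ≤ n)
    {x x' : Fin m → ℝ} {y y' : Fin n → ℝ}
    (hx : L *ᵥ x = 0) (hx' : L *ᵥ x' = 0) (hy : Rᵀ *ᵥ y = 0) (hy' : Rᵀ *ᵥ y' = 0)
    (hx0 : x ≠ 0) (hx0' : x' ≠ 0) (hy0 : y ≠ 0) (hy0' : y' ≠ 0) :
    ∀ᶠ s : ℝ in 𝓝[>] 0, (HasNonnegFactorization r (C * D + s • Matrix.vecMulVec x y) ↔
      HasNonnegFactorization r (C * D + s • Matrix.vecMulVec x' y')) := by
  obtain ⟨w, hwK, hw1, hw2⟩ := connect_nonzero (LinearMap.ker L.mulVecLin) (ker_finrank L hm)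
    (x := x) (x' := x') hx' hx0 hx0'
  obtain ⟨z, hzK, hz1, hz2⟩ := connect_nonzero (LinearMap.ker Rᵀ.mulVecLin) (ker_finrank Rᵀ hn)
    (x := y) (x' := y') hy' hy0 hy0'
  have hwK' : L *ᵥ w = 0 := hwK
  have hzK' : Rᵀ *ᵥ z = 0 := hzK
  filter_upwards [move_left h hx hwK' hy hy0 hw1, move_left h hwK' hx' hy hy0 hw2,
    move_right h hx' hy hzK' hx0' hz1, move_right h hx' hzK' hy' hx0' hz2] with s h1 h2 h3 h4
  rw [h1, h2, h3, h4]

/-- from a nearby matrix to a rank one perturbation of `C * D` -/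
lemma chain (h : Loc r L R C D δ) {N : Matrix (Fin m) (Fin n) ℝ} (hN : N.rank ≤ r)
    (hρ : ρ < N.rank) (hZ : (L * N * R).det ≠ 0)
    (h1 : N * R * (L * N * R)⁻¹ ∈ Metric.ball C δ) (h2 : L * N ∈ Metric.ball D δ)
    (h3 : N - N * R * (L * N * R)⁻¹ * (L * N) ∈ Metric.ball (0 : Matrix (Fin m) (Fin n) ℝ) δ) :
    ∃ (x : Fin m → ℝ) (y : Fin n → ℝ), L *ᵥ x = 0 ∧ Rᵀ *ᵥ y = 0 ∧ x ≠ 0 ∧ y ≠ 0 ∧
      ∀ᶠ s : ℝ in 𝓝[>] 0, (HasNonnegFactorization r N ↔
        HasNonnegFactorization r (C * D + s • Matrix.vecMulVec x y)) := by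
  set Z := L * N * R with hZdef
  set C' := N * R * Z⁻¹ with hC'
  set D' := L * N with hD'
  set E := N - C' * D' with hE
  have hZu : IsUnit Z.det := isUnit_iff_ne_zero.2 hZ
  have hLC' : L * C' = 1 := by
    rw [hC', ← Matrix.mul_assoc, ← Matrix.mul_assoc, ← hZdef, Matrix.mul_nonsing_inv _ hZu]
  have hD'R : D' * R = Z := by rw [hD', hZdef]
  have hLE : L * E = 0 := by
    rw [hE, Matrix.mul_sub, ← Matrix.mul_assoc, hLC', Matrix.one_mul, hD', sub_self]
  have hER : E * R = 0 := by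
    rw [hE, Matrix.sub_mul, Matrix.mul_assoc C', hD'R, hC', Matrix.mul_assoc (N * R),
      Matrix.nonsing_inv_mul _ hZu, Matrix.mul_one, sub_self]
  have hNE : C' * D' + E = N := by rw [hE]; abel
  have hE0 : E ≠ 0 := by
    intro h0
    rw [h0, add_zero] at hNE
    have := rank_mul_le_inner C' D'
    rw [hNE] at this
    omega
  have hErank : E.rank ≤ r - ρ := by
    have h4 := rank_ge_of_split (L := L) (R := R) (C := C') (D := D') (E := E) hLE hER
      (by rw [hLC']; simp) (by rw [hD'R]; exact hZ)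
    rw [hNE] at h4
    omega
  -- a nonzero column
  obtain ⟨j, hj⟩ : ∃ j, (fun i => E i j) ≠ 0 := by
    by_contra hcon
    push Not at hcon
    apply hE0
    ext i j
    exact congrFun (hcon j) i
  set x : Fin m → ℝ := fun i => E i j with hx
  set y : Fin n → ℝ := x ᵥ* E with hy
  have hyj : y j = ∑ i, x i * x i := by
    simp [hy, Matrix.vecMul, dotProduct, hx]
  have hypos : 0 < y j := by
    rw [hyj]
    obtain ⟨i, hi⟩ := Function.ne_iff.1 hj
    exact Finset.sum_pos' (fun i _ => mul_self_nonneg _)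
      ⟨i, Finset.mem_univ i, mul_self_pos.2 hi⟩
  have hLx : L *ᵥ x = 0 := by
    ext i
    have := congrFun (congrFun hLE i) j
    simpa [Matrix.mul_apply, Matrix.mulVec, dotProduct, hx] using this
  have hRy : Rᵀ *ᵥ y = 0 := by
    rw [Matrix.mulVec_transpose, hy, Matrix.vecMul_vecMul, hER, Matrix.vecMul_zero]
  have hy0 : y ≠ 0 := by
    intro h0
    rw [h0] at hypos
    simp at hypos
  refine ⟨x, y, hLx, hRy, hj, hy0, ?_⟩
  filter_upwards [eventually_small h.pos (Matrix.vecMulVec x y), self_mem_nhdsWithin] with s hs1 hs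
  have hs0 : (0:ℝ) < s := hs
  have hLs : L * (s • Matrix.vecMulVec x y) = 0 := by
    rw [Matrix.mul_smul, mul_vecMulVec_zero y hLx, smul_zero]
  have hRs : (s • Matrix.vecMulVec x y) * R = 0 := by
    rw [Matrix.smul_mul, vecMulVec_mul_zero x hRy, smul_zero]
  have step1 : HasNonnegFactorization r (C' * D' + E) ↔
      HasNonnegFactorization r (C' * D' + s • Matrix.vecMulVec x y) := by
    refine seg h h1 h1 h2 h2 h3 hs1 hLE hLs hER hRs fun t ht => ?_
    constructor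
    · have e : (1 - t) • E + t • s • Matrix.vecMulVec x y =
          ((1 - t) • (1 : Matrix (Fin m) (Fin m) ℝ) + (t * s) • Matrix.vecMulVec x x) * E := by
        rw [Matrix.add_mul, Matrix.smul_mul, Matrix.one_mul, Matrix.smul_mul, smul_smul]
        congr 2
        ext a b
        simp only [Matrix.vecMulVec_apply, Matrix.mul_apply, hy, Matrix.vecMul, dotProduct]
        rw [Finset.mul_sum]
        exact Finset.sum_congr rfl fun k _ => by ring
      rw [e]
      exact (Matrix.rank_mul_le_right _ _).trans hErank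
    · intro h0
      obtain ⟨i, hi⟩ := Function.ne_iff.1 hj
      have h5 := congrFun (congrFun h0 i) j
      simp only [Matrix.add_apply, Matrix.smul_apply, Matrix.vecMulVec_apply, smul_eq_mul,
        Matrix.zero_apply] at h5
      have h6 : x i * ((1 - t) + t * s * y j) = 0 := by
        have : E i j = x i := rfl
        rw [this] at h5
        linarith
      rcases mul_eq_zero.1 h6 with h7 | h7
      · exact hi h7
      · rcases eq_or_lt_of_le ht.1 with h8 | h8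
        · rw [← h8] at h7; norm_num at h7
        · have : 0 < t * s * y j := mul_pos (mul_pos h8 hs0) hypos
          linarith [ht.2]
  have step2 : HasNonnegFactorization r (C' * D' + s • Matrix.vecMulVec x y) ↔
      HasNonnegFactorization r (C * D + s • Matrix.vecMulVec x y) := by
    refine seg h h1 (Metric.mem_ball_self h.pos) h2 (Metric.mem_ball_self h.pos) hs1 hs1
      hLs hLs hRs hRs fun t ht => ?_
    have e : (1 - t) • s • Matrix.vecMulVec x y + t • s • Matrix.vecMulVec x y =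
        Matrix.vecMulVec (s • x) y := by
      ext a b
      simp [Matrix.vecMulVec_apply]
      ring
    rw [e]
    exact ⟨rank_vecMulVec_le' h.lt _ _, vecMulVec_ne_zero' (smul_ne_zero hs0.ne' hj) hy0⟩
  rw [hNE] at step1
  exact step1.trans step2

end

end Pool.Agent.H838R3.CS
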