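import Pool.Agent.H838R3.CSStepB

namespace Pool.Agent.H838R3.CS

open Matrix Filter Topology
open scoped Matrix.Norms.Elementwise

variable {m n r : ℕ}

lemma det_add_smul_one_ev (A : Matrix (Fin r) (Fin r) ℝ) :
    ∀ᶠ t : ℝ in 𝓝[>] 0, (A + t • (1 : Matrix (Fin r) (Fin r) ℝ)).det ≠ 0 := by
  set p := (-A).charpoly with hp
  have hp0 : p ≠ 0 := (Matrix.charpoly_monic (-A)).ne_zero
  have hfin : {t : ℝ | p.IsRoot t}.Finite := Polynomial.finite_setOfPred_isRoot hp0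
  have hcl : IsClosed ({t : ℝ | p.IsRoot t} \ {0}) := (hfin.subset Set.sdiff_subset).isClosed
  have h1 : ∀ᶠ t : ℝ in 𝓝[>] 0, t ∉ ({t : ℝ | p.IsRoot t} \ {0}) := by
    apply nhdsWithin_le_nhds
    exact hcl.isOpen_compl.mem_nhds (by simp)
  filter_upwards [h1, self_mem_nhdsWithin] with t ht1 ht2
  have ht0 : (0:ℝ) < t := ht2
  intro hdet
  apply ht1
  refine ⟨?_, ht0.ne'⟩
  show p.eval t = 0
  rw [hp, Matrix.eval_charpoly, sub_neg_eq_add, ← hdet]
  congr 1
  rw [add_comm]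
  congr 1
  ext i j
  simp [Matrix.scalar_apply, Matrix.diagonal_apply, Matrix.one_apply]

/-- the standard injection matrix -/
def Pm (m r : ℕ) : Matrix (Fin m) (Fin r) ℝ := Matrix.of fun i k => if (i : ℕ) = k then 1 else 0

lemma Pm_nonneg (i : Fin m) (k : Fin r) : 0 ≤ Pm m r i k := by
  simp only [Pm, Matrix.of_apply]; split_ifs <;> norm_num

lemma Pm_transpose_mul (h : r ≤ m) : (Pm m r)ᵀ * Pm m r = 1 := by
  ext k k'
  rw [Matrix.mul_apply]
  simp only [Matrix.transpose_apply, Pm, Matrix.of_apply]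
  rw [Finset.sum_eq_single (Fin.castLE h k)]
  · simp only [Fin.val_castLE, if_true, one_mul]
    by_cases hk : k = k'
    · subst hk; simp
    · rw [Matrix.one_apply_ne hk, if_neg (fun h => hk (Fin.ext h))]
  · intro i _ hi
    rw [if_neg, zero_mul]
    intro h'
    apply hi
    ext
    simpa using h'
  · simp

lemma dense_full (hm : r ≤ m) (hn : r ≤ n) (X : Matrix (Fin m) (Fin r) ℝ)
    (Y : Matrix (Fin r) (Fin n) ℝ) :
    ∀ᶠ t : ℝ in 𝓝[>] 0, r ≤ ((X + t • Pm m r) * (Y + t • (Pm n r)ᵀ)).rank := by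
  filter_upwards [det_add_smul_one_ev ((Pm m r)ᵀ * X), det_add_smul_one_ev (Y * Pm n r)]
    with t h1 h2
  set N := (X + t • Pm m r) * (Y + t • (Pm n r)ᵀ) with hN
  have e : (Pm m r)ᵀ * N * Pm n r = ((Pm m r)ᵀ * X + t • (1 : Matrix (Fin r) (Fin r) ℝ)) *
      (Y * Pm n r + t • (1 : Matrix (Fin r) (Fin r) ℝ)) := by
    have e1 : (Pm m r)ᵀ * (X + t • Pm m r) = (Pm m r)ᵀ * X + t • (1 : Matrix (Fin r) (Fin r) ℝ) := by
      rw [Matrix.mul_add, Matrix.mul_smul, Pm_transpose_mul hm]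
    have e2 : (Y + t • (Pm n r)ᵀ) * Pm n r = Y * Pm n r + t • (1 : Matrix (Fin r) (Fin r) ℝ) := by
      rw [Matrix.add_mul, Matrix.smul_mul, Pm_transpose_mul hn]
    rw [← e1, ← e2, hN]
    simp only [Matrix.mul_assoc]
  have hr : ((Pm m r)ᵀ * N * Pm n r).rank = r := by
    rw [e, Matrix.rank_of_isUnit _ ((Matrix.isUnit_iff_isUnit_det _).2 (isUnit_iff_ne_zero.2 (by
      rw [Matrix.det_mul]; exact mul_ne_zero h1 h2)))]
    simp
  calc r = ((Pm m r)ᵀ * N * Pm n r).rank := hr.symm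
    _ ≤ ((Pm m r)ᵀ * N).rank := Matrix.rank_mul_le_left _ _
    _ ≤ N.rank := Matrix.rank_mul_le_right _ _

lemma tendsto_full (X : Matrix (Fin m) (Fin r) ℝ) (Y : Matrix (Fin r) (Fin n) ℝ) :
    Tendsto (fun t : ℝ => (X + t • Pm m r) * (Y + t • (Pm n r)ᵀ)) (𝓝[>] 0) (𝓝 (X * Y)) := by
  have c1 : Continuous (fun t : ℝ => X + t • Pm m r) := by fun_prop
  have c2 : Continuous (fun t : ℝ => Y + t • (Pm n r)ᵀ) := by fun_prop
  have := ((c1.matrix_mul c2).tendsto 0).mono_left (nhdsWithin_le_nhds (s := Set.Ioi (0:ℝ)))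
  simpa using this

lemma continuousAt_inv_of_det {X : Type*} [TopologicalSpace X]
    {f : X → Matrix (Fin r) (Fin r) ℝ} {x : X} (hf : ContinuousAt f x) (h : (f x).det ≠ 0) :
    ContinuousAt (fun y => (f y)⁻¹) x := by
  have : ContinuousAt (fun G : Matrix (Fin r) (Fin r) ℝ => G⁻¹) (f x) := by
    apply continuousAt_matrix_inv
    have : (Ring.inverse : ℝ → ℝ) = fun x => x⁻¹ := by
      ext x; exact Ring.inverse_eq_inv x
    rw [this]
    exact continuousAt_inv₀ h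
  exact ContinuousAt.comp (g := fun G : Matrix (Fin r) (Fin r) ℝ => G⁻¹) this hf

lemma continuousAt_mul {a b c : ℕ} {X : Type*} [TopologicalSpace X]
    {f : X → Matrix (Fin a) (Fin b) ℝ} {g : X → Matrix (Fin b) (Fin c) ℝ} {x : X}
    (hf : ContinuousAt f x) (hg : ContinuousAt g x) : ContinuousAt (fun y => f y * g y) x := by
  have hmul : Continuous (fun p : Matrix (Fin a) (Fin b) ℝ × Matrix (Fin b) (Fin c) ℝ =>
      p.1 * p.2) := continuous_fst.matrix_mul continuous_snd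
  exact hmul.continuousAt.comp (hf.prodMk hg)

lemma step (hm : r < m) (hn : r < n) {M : Matrix (Fin m) (Fin n) ℝ} (hM : M ∈ Bd m n r)
    {ρ : ℕ} (hρ : M.rank = ρ) (hrank : ρ < r) : M ∈ closure (Bd m n r ∩ {N | ρ < N.rank}) := by
  by_contra hcon
  obtain ⟨C, D, hCD⟩ : ∃ (X : Matrix (Fin m) (Fin ρ) ℝ) (Y : Matrix (Fin ρ) (Fin n) ℝ),
      M = X * Y := by
    have := exists_factor_rank M
    rwa [hρ] at this
  obtain ⟨L, hL⟩ : ∃ L : Matrix (Fin ρ) (Fin m) ℝ, L * C = 1 := by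
    apply exists_left_inv
    calc ρ = (C * D).rank := by rw [← hCD, hρ]
      _ ≤ C.rank := Matrix.rank_mul_le_left _ _
  obtain ⟨R, hR⟩ : ∃ R : Matrix (Fin n) (Fin ρ) ℝ, D * R = 1 := by
    apply exists_right_inv
    calc ρ = (C * D).rank := by rw [← hCD, hρ]
      _ ≤ D.rank := Matrix.rank_mul_le_right _ _
  rw [mem_closure_iff_nhds] at hcon
  push Not at hcon
  obtain ⟨U, hU, hUe⟩ := hcon
  -- the ball
  set ψ : Matrix (Fin m) (Fin ρ) ℝ × Matrix (Fin ρ) (Fin n) ℝ × Matrix (Fin m) (Fin n) ℝ →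
    Matrix (Fin m) (Fin n) ℝ := fun p => p.1 * p.2.1 + p.2.2 with hψ
  have hψc : Continuous ψ := by
    refine Continuous.add ?_ (continuous_snd.comp continuous_snd)
    exact continuous_fst.matrix_mul (continuous_fst.comp continuous_snd)
  have hψM : ψ (C, D, 0) = M := by simp [hψ, ← hCD]
  have hn1 : ψ ⁻¹' U ∈ 𝓝 (C, D, (0 : Matrix (Fin m) (Fin n) ℝ)) := by
    apply hψc.continuousAt
    rw [hψM]; exact hU
  have hn2 : ∀ᶠ p in 𝓝 (C, D, (0 : Matrix (Fin m) (Fin n) ℝ)), (L * p.1).det ≠ 0 := by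
    have hc : Continuous (fun p : Matrix (Fin m) (Fin ρ) ℝ × Matrix (Fin ρ) (Fin n) ℝ ×
        Matrix (Fin m) (Fin n) ℝ => (L * p.1).det) :=
      (continuous_const.matrix_mul continuous_fst).matrix_det
    apply hc.continuousAt.eventually_ne
    show (L * C).det ≠ 0
    rw [hL]; simp
  have hn3 : ∀ᶠ p in 𝓝 (C, D, (0 : Matrix (Fin m) (Fin n) ℝ)), (p.2.1 * R).det ≠ 0 := by
    have hc : Continuous (fun p : Matrix (Fin m) (Fin ρ) ℝ × Matrix (Fin ρ) (Fin n) ℝ ×
        Matrix (Fin m) (Fin n) ℝ => (p.2.1 * R).det) :=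
      ((continuous_fst.comp continuous_snd).matrix_mul continuous_const).matrix_det
    apply hc.continuousAt.eventually_ne
    show (D * R).det ≠ 0
    rw [hR]; simp
  obtain ⟨δ, hδ, hball⟩ := Metric.mem_nhds_iff.1 (inter_mem hn1 (inter_mem hn2 hn3))
  have hloc : Loc r L R C D δ := by
    have hb : ∀ C' ∈ Metric.ball C δ, ∀ D' ∈ Metric.ball D δ,
        ∀ E ∈ Metric.ball (0 : Matrix (Fin m) (Fin n) ℝ) δ,
        (C', D', E) ∈ Metric.ball (C, D, (0 : Matrix (Fin m) (Fin n) ℝ)) δ := by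
      intro C' hC' D' hD' E hE
      rw [← ball_prod_same, ← ball_prod_same]
      exact ⟨hC', hD', hE⟩
    refine ⟨hrank, hδ, ?_, ?_, ?_⟩
    · intro C' hC'
      exact (hball (hb C' hC' D (Metric.mem_ball_self hδ) 0 (Metric.mem_ball_self hδ))).2.1
    · intro D' hD'
      exact (hball (hb C (Metric.mem_ball_self hδ) D' hD' 0 (Metric.mem_ball_self hδ))).2.2
    · intro C' hC' D' hD' E hE hbd
      by_contra hlt
      push Not at hlt
      have h1 : ψ (C', D', E) ∈ U := (hball (hb C' hC' D' hD' E hE)).1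
      have h2 : ψ (C', D', E) ∈ U ∩ (Bd m n r ∩ {N | ρ < N.rank}) := ⟨h1, hbd, hlt⟩
      rw [hUe] at h2
      exact h2
  -- the neighborhood of M
  have hLMR : L * M * R = 1 := by
    rw [hCD]
    calc L * (C * D) * R = (L * C) * (D * R) := by simp only [Matrix.mul_assoc]
      _ = 1 := by rw [hL, hR, Matrix.one_mul]
  have hMR : M * R = C := by rw [hCD, Matrix.mul_assoc, hR, Matrix.mul_one]
  have hLM : L * M = D := by rw [hCD, ← Matrix.mul_assoc, hL, Matrix.one_mul]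
  have cZ : Continuous (fun N : Matrix (Fin m) (Fin n) ℝ => L * N * R) :=
    (continuous_const.matrix_mul continuous_id).matrix_mul continuous_const
  have cR : Continuous (fun N : Matrix (Fin m) (Fin n) ℝ => N * R) :=
    continuous_id.matrix_mul continuous_const
  have cL : Continuous (fun N : Matrix (Fin m) (Fin n) ℝ => L * N) :=
    continuous_const.matrix_mul continuous_id
  have cI : ContinuousAt (fun N : Matrix (Fin m) (Fin n) ℝ => (L * N * R)⁻¹) M :=
    continuousAt_inv_of_det cZ.continuousAt (by rw [hLMR]; simp)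
  have cC : ContinuousAt (fun N : Matrix (Fin m) (Fin n) ℝ => N * R * (L * N * R)⁻¹) M :=
    continuousAt_mul cR.continuousAt cI
  have cE : ContinuousAt (fun N : Matrix (Fin m) (Fin n) ℝ =>
      N - N * R * (L * N * R)⁻¹ * (L * N)) M :=
    continuousAt_id.sub (continuousAt_mul cC cL.continuousAt)
  have hV : ∀ᶠ N in 𝓝 M, (L * N * R).det ≠ 0 ∧
      N * R * (L * N * R)⁻¹ ∈ Metric.ball C δ ∧ L * N ∈ Metric.ball D δ ∧
      N - N * R * (L * N * R)⁻¹ * (L * N) ∈ Metric.ball (0 : Matrix (Fin m) (Fin n) ℝ) δ := by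
    have v1 : ∀ᶠ N in 𝓝 M, (L * N * R).det ≠ 0 :=
      (cZ.matrix_det.continuousAt (x := M)).eventually_ne (by rw [hLMR]; simp)
    have v2 : ∀ᶠ N in 𝓝 M, N * R * (L * N * R)⁻¹ ∈ Metric.ball C δ := by
      apply cC.eventually (p := fun X => X ∈ Metric.ball C δ)
      apply Metric.isOpen_ball.mem_nhds
      show M * R * (L * M * R)⁻¹ ∈ Metric.ball C δ
      rw [hLMR, inv_one, Matrix.mul_one, hMR]
      exact Metric.mem_ball_self hδ
    have v3 : ∀ᶠ N in 𝓝 M, L * N ∈ Metric.ball D δ := by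
      apply cL.continuousAt.eventually (p := fun X => X ∈ Metric.ball D δ)
      apply Metric.isOpen_ball.mem_nhds
      show L * M ∈ Metric.ball D δ
      rw [hLM]
      exact Metric.mem_ball_self hδ
    have v4 : ∀ᶠ N in 𝓝 M, N - N * R * (L * N * R)⁻¹ * (L * N) ∈
        Metric.ball (0 : Matrix (Fin m) (Fin n) ℝ) δ := by
      apply cE.eventually (p := fun X => X ∈ Metric.ball (0 : Matrix (Fin m) (Fin n) ℝ) δ)
      apply Metric.isOpen_ball.mem_nhds
      show M - M * R * (L * M * R)⁻¹ * (L * M) ∈ Metric.ball (0 : Matrix (Fin m) (Fin n) ℝ) δ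
      rw [hLMR, inv_one, Matrix.mul_one, hMR, hLM, ← hCD, sub_self]
      exact Metric.mem_ball_self hδ
    filter_upwards [v1, v2, v3, v4] with N h1 h2 h3 h4
    exact ⟨h1, h2, h3, h4⟩
  -- inside point
  obtain ⟨Ni, hNi1, hNi2, hNi3⟩ : ∃ N : Matrix (Fin m) (Fin n) ℝ, r ≤ N.rank ∧
      HasNonnegFactorization r N ∧ ((L * N * R).det ≠ 0 ∧
      N * R * (L * N * R)⁻¹ ∈ Metric.ball C δ ∧ L * N ∈ Metric.ball D δ ∧
      N - N * R * (L * N * R)⁻¹ * (L * N) ∈ Metric.ball (0 : Matrix (Fin m) (Fin n) ℝ) δ) := by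
    obtain ⟨A, B, hA, hB, hAB⟩ := hM.1
    have ht := tendsto_full A B
    rw [← hAB] at ht
    obtain ⟨t, ⟨h1, h2⟩, h3⟩ := (((dense_full hm.le hn.le A B).and (ht.eventually hV)).and
      self_mem_nhdsWithin).exists
    have ht0 : (0:ℝ) < t := h3
    refine ⟨_, h1, ⟨_, _, ?_, ?_, rfl⟩, h2⟩
    · intro i k
      rw [Matrix.add_apply, Matrix.smul_apply, smul_eq_mul]
      exact add_nonneg (hA _ _) (mul_nonneg ht0.le (Pm_nonneg _ _))
    · intro k j
      rw [Matrix.add_apply, Matrix.smul_apply, smul_eq_mul, Matrix.transpose_apply]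
      exact add_nonneg (hB _ _) (mul_nonneg ht0.le (Pm_nonneg _ _))
  -- outside point
  obtain ⟨No, hNo1, hNo0, hNo2, hNo3⟩ : ∃ N : Matrix (Fin m) (Fin n) ℝ, r ≤ N.rank ∧ N.rank ≤ r ∧
      ¬ HasNonnegFactorization r N ∧ ((L * N * R).det ≠ 0 ∧
      N * R * (L * N * R)⁻¹ ∈ Metric.ball C δ ∧ L * N ∈ Metric.ball D δ ∧
      N - N * R * (L * N * R)⁻¹ * (L * N) ∈ Metric.ball (0 : Matrix (Fin m) (Fin n) ℝ) δ) := by
    have h0 := hM.2
    rw [mem_closure_iff_frequently] at h0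
    obtain ⟨N0, ⟨hN1, hN2⟩, hN3⟩ := (h0.and_eventually hV.eventually_nhds).exists
    obtain ⟨X, Y, rfl⟩ := exists_factor hN1
    have ht := tendsto_full X Y
    have hcl : ∀ᶠ N in 𝓝 (X * Y), ¬ HasNonnegFactorization r N :=
      (isClosed_hasNonnegFactorization.isOpen_compl).mem_nhds hN2
    obtain ⟨t, ⟨h1, h2⟩, h3⟩ := (((dense_full hm.le hn.le X Y).and (ht.eventually hN3)).and
      (ht.eventually hcl)).exists
    exact ⟨_, h1, rank_mul_le_inner _ _, h3, h2⟩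
  obtain ⟨x, y, hx, hy, hx0, hy0, hxy⟩ := chain hloc hNi2.rank_le (lt_of_lt_of_le hrank hNi1)
    hNi3.1 hNi3.2.1 hNi3.2.2.1 hNi3.2.2.2
  obtain ⟨x', y', hx', hy', hx0', hy0', hxy'⟩ := chain hloc hNo0 (lt_of_lt_of_le hrank hNo1)
    hNo3.1 hNo3.2.1 hNo3.2.2.1 hNo3.2.2.2
  obtain ⟨s, ⟨hs1, hs2⟩, hs3⟩ := ((hxy.and hxy').and (move hloc (by omega) (by omega) hx hx' hy hy'
    hx0 hx0' hy0 hy0')).exists
  exact hNo2 (hs2.2 (hs3.1 (hs1.1 hNi2)))

lemma mem_closure_full (hm : r < m) (hn : r < n) {M : Matrix (Fin m) (Fin n) ℝ}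
    (hM : M ∈ Bd m n r) : M ∈ closure (Bd m n r ∩ {N | r ≤ N.rank}) := by
  have key : ∀ k : ℕ, ∀ M : Matrix (Fin m) (Fin n) ℝ, M ∈ Bd m n r → r - M.rank = k →
      M ∈ closure (Bd m n r ∩ {N | r ≤ N.rank}) := by
    intro k
    induction k using Nat.strong_induction_on with
    | _ k ih =>
      intro M hM hk
      by_cases hr : r ≤ M.rank
      · exact subset_closure ⟨hM, hr⟩
      · push Not at hr
        have h1 := step hm hn hM rfl hr
        rw [← closure_closure (s := Bd m n r ∩ {N | r ≤ N.rank})]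
        refine closure_mono ?_ h1
        rintro N ⟨hN1, hN2⟩
        have hN2' : M.rank < N.rank := hN2
        exact ih (r - N.rank) (by omega) N hN1 rfl
  exact key _ M hM rfl

end Pool.Agent.H838R3.CS
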