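import Mathlib

/-!
# Covering 3-graphs and involutions of the vertex set
-/

set_option autoImplicit false

open Finset

namespace Pool.Agent.H838R3.TuranRefl

variable {V : Type} [Fintype V] [DecidableEq V]

/-- The edges of `G` which contain two points exchanged by `τ` and are not mapped to an edge. -/
def broken (G : Finset (Finset V)) (τ : Equiv.Perm V) : Finset (Finset V) :=
  G.filter fun e => e.image τ ∉ G ∧ ∃ x ∈ e, τ x ≠ x ∧ τ x ∈ e

/-- ordered triples of distinct points forming an edge -/
def trip (G : Finset (Finset V)) : Finset (V × V × V) :=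
  univ.filter fun t => t.1 ≠ t.2.1 ∧ t.1 ≠ t.2.2 ∧ t.2.1 ≠ t.2.2 ∧
    ({t.1, t.2.1, t.2.2} : Finset V) ∈ G

theorem card_trip (G : Finset (Finset V)) : (trip G).card ≤ 6 * G.card := by
  classical
  have hmap : ∀ t ∈ trip G, ({t.1, t.2.1, t.2.2} : Finset V) ∈ G := by
    intro t ht
    simp only [trip, mem_filter] at ht
    exact ht.2.2.2.2
  have := Finset.card_le_mul_card_image_of_maps_to (f := fun t : V × V × V =>
    ({t.1, t.2.1, t.2.2} : Finset V)) hmap 6 ?_
  · exact this
  intro e he
  by_cases hne : ((trip G).filter fun t => ({t.1, t.2.1, t.2.2} : Finset V) = e).Nonempty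
  · obtain ⟨⟨a, b, c⟩, h⟩ := hne
    simp only [trip, mem_filter, mem_univ, true_and] at h
    obtain ⟨⟨hab, hac, hbc, hG⟩, rfl⟩ := h
    have hsub : ((trip G).filter fun t => ({t.1, t.2.1, t.2.2} : Finset V) = {a, b, c}) ⊆
        {(a, b, c), (a, c, b), (b, a, c), (b, c, a), (c, a, b), (c, b, a)} := by
      rintro ⟨x, y, z⟩ h
      simp only [trip, mem_filter, mem_univ, true_and] at h
      obtain ⟨⟨hxy, hxz, hyz, -⟩, h⟩ := h
      have hx : x ∈ ({a, b, c} : Finset V) := by rw [← h]; simp
      have hy : y ∈ ({a, b, c} : Finset V) := by rw [← h]; simp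
      have hz : z ∈ ({a, b, c} : Finset V) := by rw [← h]; simp
      simp only [mem_insert, mem_singleton] at hx hy hz
      simp only [mem_insert, mem_singleton, Prod.mk.injEq]
      rcases hx with rfl | rfl | rfl <;> rcases hy with rfl | rfl | rfl <;>
        rcases hz with rfl | rfl | rfl <;> simp_all
    exact (card_le_card hsub).trans card_le_six
  · rw [not_nonempty_iff_eq_empty] at hne
    rw [hne]
    simp

/-- pairs of points moved by `τ` in different cycles -/
def prs (τ : Equiv.Perm V) : Finset (V × V) :=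
  univ.filter fun p => τ p.1 ≠ p.1 ∧ τ p.2 ≠ p.2 ∧ p.2 ≠ p.1 ∧ p.2 ≠ τ p.1

theorem card_prs (τ : Equiv.Perm V) :
    (prs τ).card = τ.support.card * (τ.support.card - 2) := by
  classical
  have : prs τ = τ.support.biUnion (fun x => (τ.support \ {x, τ x}).image (fun z => (x, z))) := by
    ext ⟨x, z⟩
    simp only [prs, mem_filter, mem_univ, true_and, mem_biUnion, Equiv.Perm.mem_support,
      mem_image, mem_sdiff, mem_insert, mem_singleton, Prod.mk.injEq, not_or]
    constructor
    · rintro ⟨h1, h2, h3, h4⟩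
      exact ⟨x, h1, z, ⟨h2, h3, h4⟩, rfl, rfl⟩
    · rintro ⟨x', h1, z', ⟨h2, h3, h4⟩, rfl, rfl⟩
      exact ⟨h1, h2, h3, h4⟩
  rw [this, card_biUnion]
  · rw [sum_congr rfl (g := fun _ => τ.support.card - 2), sum_const, smul_eq_mul]
    intro x hx
    rw [card_image_of_injective _ (fun a b h => by simpa using h)]
    rw [card_sdiff_of_subset]
    · rw [card_pair]
      rw [Equiv.Perm.mem_support] at hx
      exact fun h => hx h.symm
    · intro y hy
      simp only [mem_insert, mem_singleton] at hy
      rcases hy with rfl | rfl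
      · exact hx
      · rw [Equiv.Perm.apply_mem_support]
        exact hx
  · intro x _ y _ hxy
    rw [Function.onFun, disjoint_left]
    rintro ⟨a, b⟩ h1 h2
    simp only [mem_image, Prod.mk.injEq] at h1 h2
    obtain ⟨_, _, rfl, _⟩ := h1
    obtain ⟨_, _, rfl, _⟩ := h2
    exact hxy rfl

omit [Fintype V] [DecidableEq V] in
theorem inv_apply {τ : Equiv.Perm V} (hτ : τ * τ = 1) (x : V) : τ (τ x) = x := by
  have := congrArg (fun f : Equiv.Perm V => f x) hτ
  simpa using this

/-- the key step -/
theorem key {G : Finset (Finset V)}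
    (hcov : ∀ S : Finset V, S.card = 4 → ∃ e ∈ G, e ⊆ S) (h3 : ∀ e ∈ G, e.card = 3)
    {τ : Equiv.Perm V} (hτ : τ * τ = 1) {p : V × V} (hp : p ∈ prs τ) :
    ({p.1, τ p.1, p.2} : Finset V) ∈ G ∨ ({p.2, τ p.2, p.1} : Finset V) ∈ G ∨
      ({p.1, τ p.1, τ p.2} : Finset V) ∈ broken G τ ∨
      ({p.2, τ p.2, τ p.1} : Finset V) ∈ broken G τ := by
  classical
  obtain ⟨x, z⟩ := p
  simp only [prs, mem_filter, mem_univ, true_and] at hp
  obtain ⟨h1, h2, h4, h5⟩ := hp
  simp only
  have h6 : τ z ≠ x := by
    intro h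
    apply h5
    rw [← h, inv_apply hτ]
  have h7 : τ z ≠ τ x := fun h => h4 (τ.injective h)
  have hcard : ({x, τ x, z, τ z} : Finset V).card = 4 := by
    rw [card_insert_of_notMem, card_insert_of_notMem, card_insert_of_notMem, card_singleton]
    · simpa using h2.symm
    · simp only [mem_insert, mem_singleton, not_or]
      exact ⟨h5.symm, h7.symm⟩
    · simp only [mem_insert, mem_singleton, not_or]
      exact ⟨h1.symm, h4.symm, h6.symm⟩
  obtain ⟨e, he, hsub⟩ := hcov {x, τ x, z, τ z} hcard
  have hc := h3 e he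
  -- one of the four points is missing
  have hmiss : ∃ v ∈ ({x, τ x, z, τ z} : Finset V), e = ({x, τ x, z, τ z} : Finset V).erase v := by
    have h1' : (({x, τ x, z, τ z} : Finset V) \ e).card = 1 := by
      rw [card_sdiff_of_subset hsub, hcard, hc]
    obtain ⟨v, hv⟩ := card_eq_one.1 h1'
    have hv' : v ∈ ({x, τ x, z, τ z} : Finset V) \ e := by rw [hv]; simp
    refine ⟨v, (mem_sdiff.1 hv').1, ?_⟩
    rw [erase_eq, ← hv, Finset.sdiff_sdiff_eq_self hsub]
  -- images
  have im1 : ({x, τ x, τ z} : Finset V).image τ = {x, τ x, z} := by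
    rw [image_insert, image_insert, image_singleton, inv_apply hτ, inv_apply hτ]
    rw [insert_comm]
  have im2 : ({z, τ z, τ x} : Finset V).image τ = {z, τ z, x} := by
    rw [image_insert, image_insert, image_singleton, inv_apply hτ, inv_apply hτ]
    rw [insert_comm]
  obtain ⟨v, hv, rfl⟩ := hmiss
  simp only [mem_insert, mem_singleton] at hv
  rcases hv with rfl | rfl | rfl | rfl
  · -- `x` is missing
    have he' : ({z, τ z, τ v} : Finset V) ∈ G := by
      convert he using 1
      ext y
      simp only [mem_insert, mem_singleton, mem_erase]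
      constructor
      · rintro (rfl | rfl | rfl)
        · exact ⟨h4, by simp⟩
        · exact ⟨h6, by simp⟩
        · exact ⟨h1, by simp⟩
      · rintro ⟨hy, rfl | rfl | rfl | rfl⟩
        · exact absurd rfl hy
        · simp
        · simp
        · simp
    by_cases hb : ({z, τ z, v} : Finset V) ∈ G
    · exact Or.inr (Or.inl hb)
    · refine Or.inr (Or.inr (Or.inr ?_))
      rw [broken, mem_filter, im2]
      exact ⟨he', hb, z, by simp, h2, by simp⟩
  · -- `τ x` is missing
    refine Or.inr (Or.inl ?_)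
    convert he using 1
    ext y
    simp only [mem_insert, mem_singleton, mem_erase]
    constructor
    · rintro (rfl | rfl | rfl)
      · exact ⟨h5, by simp⟩
      · exact ⟨h7, by simp⟩
      · exact ⟨h1.symm, by simp⟩
    · rintro ⟨hy, rfl | rfl | rfl | rfl⟩
      · simp
      · exact absurd rfl hy
      · simp
      · simp
  · -- `z` is missing
    have he' : ({x, τ x, τ v} : Finset V) ∈ G := by
      convert he using 1
      ext y
      simp only [mem_insert, mem_singleton, mem_erase]
      constructor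
      · rintro (rfl | rfl | rfl)
        · exact ⟨h4.symm, by simp⟩
        · exact ⟨h5.symm, by simp⟩
        · exact ⟨h2, by simp⟩
      · rintro ⟨hy, rfl | rfl | rfl | rfl⟩
        · simp
        · simp
        · exact absurd rfl hy
        · simp
    by_cases hb : ({x, τ x, v} : Finset V) ∈ G
    · exact Or.inl hb
    · refine Or.inr (Or.inr (Or.inl ?_))
      rw [broken, mem_filter, im1]
      exact ⟨he', hb, x, by simp, h1, by simp⟩
  · -- `τ z` is missing
    left
    convert he using 1
    ext y
    simp only [mem_insert, mem_singleton, mem_erase]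
    constructor
    · rintro (rfl | rfl | rfl)
      · exact ⟨h6.symm, by simp⟩
      · exact ⟨h7.symm, by simp⟩
      · exact ⟨h2.symm, by simp⟩
    · rintro ⟨hy, rfl | rfl | rfl | rfl⟩
      · simp
      · simp
      · simp
      · exact absurd rfl hy

theorem swap_mem {τ : Equiv.Perm V} (hτ : τ * τ = 1) {p : V × V} (hp : p ∈ prs τ) :
    p.swap ∈ prs τ := by
  obtain ⟨x, z⟩ := p
  simp only [prs, mem_filter, mem_univ, true_and, Prod.swap_prod_mk] at hp ⊢
  obtain ⟨h1, h2, h4, h5⟩ := hp
  refine ⟨h2, h1, h4.symm, ?_⟩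
  intro hx
  apply h5
  rw [hx, inv_apply hτ]

theorem card_broken_le {G : Finset (Finset V)} {τ : Equiv.Perm V} (hτ : τ * τ = 1) :
    ((prs τ).filter fun p => ({p.1, τ p.1, τ p.2} : Finset V) ∈ broken G τ).card ≤
      2 * (broken G τ).card := by
  classical
  refine card_le_mul_card_image_of_maps_to (f := fun p : V × V =>
    ({p.1, τ p.1, τ p.2} : Finset V)) (fun p hp => (mem_filter.1 hp).2) 2 ?_
  intro e _
  by_cases hne : (((prs τ).filter fun p => ({p.1, τ p.1, τ p.2} : Finset V) ∈ broken G τ).filter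
      fun p => ({p.1, τ p.1, τ p.2} : Finset V) = e).Nonempty
  · obtain ⟨⟨x, z⟩, h⟩ := hne
    simp only [prs, mem_filter, mem_univ, true_and] at h
    obtain ⟨⟨⟨h1, h2, h4, h5⟩, -⟩, rfl⟩ := h
    have h6 : τ z ≠ x := by
      intro h
      apply h5
      rw [← h, inv_apply hτ]
    have h7 : τ z ≠ τ x := fun h => h4 (τ.injective h)
    have hsub : (((prs τ).filter fun p => ({p.1, τ p.1, τ p.2} : Finset V) ∈ broken G τ).filter
        fun p => ({p.1, τ p.1, τ p.2} : Finset V) = {x, τ x, τ z}) ⊆ {(x, z), (τ x, z)} := by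
      rintro ⟨x', z'⟩ h
      simp only [prs, mem_filter, mem_univ, true_and] at h
      obtain ⟨⟨⟨g1, g2, g4, g5⟩, -⟩, h⟩ := h
      have hx : x' ∈ ({x, τ x, τ z} : Finset V) := by rw [← h]; simp
      have hx2 : τ x' ∈ ({x, τ x, τ z} : Finset V) := by rw [← h]; simp
      have hz : τ z' ∈ ({x, τ x, τ z} : Finset V) := by rw [← h]; simp
      simp only [mem_insert, mem_singleton] at hx hx2 hz
      have g6 : τ z' ≠ x' := by
        intro h
        apply g5
        rw [← h, inv_apply hτ]
      have g7 : τ z' ≠ τ x' := fun h => g4 (τ.injective h)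
      simp only [mem_insert, mem_singleton, Prod.mk.injEq]
      rcases hx with rfl | rfl | rfl
      · left
        refine ⟨rfl, ?_⟩
        rcases hz with h | h | h
        · exact absurd h g6
        · exact absurd h g7
        · exact τ.injective h
      · right
        refine ⟨rfl, ?_⟩
        rw [inv_apply hτ] at g7
        rcases hz with h | h | h
        · exact absurd h g7
        · exact absurd h g6
        · exact τ.injective h
      · exfalso
        rw [inv_apply hτ] at hx2
        rcases hx2 with h | h | h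
        · exact h4 h
        · exact h5 h
        · exact h2 h.symm
    exact (card_le_card hsub).trans card_le_two
  · rw [not_nonempty_iff_eq_empty] at hne
    rw [hne]
    simp

/-- the general inequality -/
theorem general {G : Finset (Finset V)}
    (hcov : ∀ S : Finset V, S.card = 4 → ∃ e ∈ G, e ⊆ S) (h3 : ∀ e ∈ G, e.card = 3)
    (T : Finset (Equiv.Perm V)) (hT : ∀ τ ∈ T, τ * τ = 1) (w : Equiv.Perm V → ℕ)
    (l : ℕ) (hl : ∀ x y : V, x ≠ y → ∑ τ ∈ T.filter (fun τ => τ x = y), w τ ≤ l) :
    ∑ τ ∈ T, w τ * (τ.support.card * (τ.support.card - 2)) ≤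
      12 * l * G.card + 4 * ∑ τ ∈ T, w τ * (broken G τ).card := by
  classical
  have step1 : ∀ τ ∈ T, τ.support.card * (τ.support.card - 2) ≤
      2 * ((prs τ).filter fun p => ({p.1, τ p.1, p.2} : Finset V) ∈ G).card +
        4 * (broken G τ).card := by
    intro τ hτT
    have hτ := hT τ hτT
    rw [← card_prs τ]
    have hsub : prs τ ⊆ (((prs τ).filter fun p => ({p.1, τ p.1, p.2} : Finset V) ∈ G) ∪
        ((prs τ).filter fun p => ({p.2, τ p.2, p.1} : Finset V) ∈ G)) ∪
        (((prs τ).filter fun p => ({p.1, τ p.1, τ p.2} : Finset V) ∈ broken G τ) ∪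
        ((prs τ).filter fun p => ({p.2, τ p.2, τ p.1} : Finset V) ∈ broken G τ)) := by
      intro p hp
      simp only [mem_union, mem_filter]
      rcases key hcov h3 hτ hp with h | h | h | h
      · exact Or.inl (Or.inl ⟨hp, h⟩)
      · exact Or.inl (Or.inr ⟨hp, h⟩)
      · exact Or.inr (Or.inl ⟨hp, h⟩)
      · exact Or.inr (Or.inr ⟨hp, h⟩)
    have hswap : ((prs τ).filter fun p => ({p.2, τ p.2, p.1} : Finset V) ∈ G).card ≤
        ((prs τ).filter fun p => ({p.1, τ p.1, p.2} : Finset V) ∈ G).card := by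
      apply card_le_card_of_injOn Prod.swap
      · intro p hp
        simp only [coe_filter, Set.mem_ofPred_eq] at hp ⊢
        exact ⟨swap_mem hτ hp.1, hp.2⟩
      · exact fun a _ b _ h => Prod.swap_injective h
    have hswap2 : ((prs τ).filter fun p => ({p.2, τ p.2, τ p.1} : Finset V) ∈ broken G τ).card ≤
        ((prs τ).filter fun p => ({p.1, τ p.1, τ p.2} : Finset V) ∈ broken G τ).card := by
      apply card_le_card_of_injOn Prod.swap
      · intro p hp
        simp only [coe_filter, Set.mem_ofPred_eq] at hp ⊢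
        exact ⟨swap_mem hτ hp.1, hp.2⟩
      · exact fun a _ b _ h => Prod.swap_injective h
    have h1 := (card_le_card hsub).trans (card_union_le _ _)
    have h2 := card_union_le ((prs τ).filter fun p => ({p.1, τ p.1, p.2} : Finset V) ∈ G)
      ((prs τ).filter fun p => ({p.2, τ p.2, p.1} : Finset V) ∈ G)
    have h3 := card_union_le
      ((prs τ).filter fun p => ({p.1, τ p.1, τ p.2} : Finset V) ∈ broken G τ)
      ((prs τ).filter fun p => ({p.2, τ p.2, τ p.1} : Finset V) ∈ broken G τ)
    have h4 := card_broken_le (G := G) hτ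
    omega
  have step2 : ∑ τ ∈ T, w τ * ((prs τ).filter fun p => ({p.1, τ p.1, p.2} : Finset V) ∈ G).card ≤
      l * (trip G).card := by
    -- count by the ordered triple `(x, τ x, z)`
    have h1 : ∀ τ ∈ T, w τ * ((prs τ).filter fun p => ({p.1, τ p.1, p.2} : Finset V) ∈ G).card ≤
        ∑ t ∈ trip G, if τ t.1 = t.2.1 then w τ else 0 := by
      intro τ _
      rw [← sum_filter, sum_const, smul_eq_mul, mul_comm]
      apply Nat.mul_le_mul_right
      apply card_le_card_of_injOn (fun p => (p.1, τ p.1, p.2))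
      · rintro ⟨x, z⟩ hp
        simp only [coe_filter, prs, mem_filter, mem_univ, true_and, Set.mem_ofPred_eq, trip]
          at hp ⊢
        obtain ⟨⟨h1, h2, h4, h5⟩, h⟩ := hp
        exact ⟨⟨h1.symm, h4.symm, h5.symm, h⟩, trivial⟩
      · rintro ⟨a, b⟩ _ ⟨c, d⟩ _ h
        simp only [Prod.mk.injEq] at h ⊢
        exact ⟨h.1, h.2.2⟩
    refine (sum_le_sum h1).trans ?_
    rw [sum_comm]
    have h2 : ∀ t ∈ trip G, (∑ τ ∈ T, if τ t.1 = t.2.1 then w τ else 0) ≤ l := by
      intro t ht
      rw [← sum_filter]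
      apply hl
      simp only [trip, mem_filter] at ht
      exact ht.2.1
    refine (sum_le_sum h2).trans ?_
    rw [sum_const, smul_eq_mul, mul_comm]
  calc ∑ τ ∈ T, w τ * (τ.support.card * (τ.support.card - 2))
      ≤ ∑ τ ∈ T, (2 * (w τ * ((prs τ).filter fun p => ({p.1, τ p.1, p.2} : Finset V) ∈ G).card) +
        4 * (w τ * (broken G τ).card)) := by
        apply sum_le_sum
        intro τ hτ
        calc w τ * (τ.support.card * (τ.support.card - 2)) ≤ w τ *
            (2 * ((prs τ).filter fun p => ({p.1, τ p.1, p.2} : Finset V) ∈ G).card +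
              4 * (broken G τ).card) := Nat.mul_le_mul_left _ (step1 τ hτ)
          _ = _ := by ring
    _ = 2 * ∑ τ ∈ T, w τ * ((prs τ).filter fun p => ({p.1, τ p.1, p.2} : Finset V) ∈ G).card +
        4 * ∑ τ ∈ T, w τ * (broken G τ).card := by
        rw [sum_add_distrib, ← mul_sum, ← mul_sum]
    _ ≤ 2 * (l * (trip G).card) + 4 * ∑ τ ∈ T, w τ * (broken G τ).card :=
        Nat.add_le_add_right (Nat.mul_le_mul_left _ step2) _
    _ ≤ 2 * (l * (6 * G.card)) + 4 * ∑ τ ∈ T, w τ * (broken G τ).card :=
        Nat.add_le_add_right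
          (Nat.mul_le_mul_left _ (Nat.mul_le_mul_left _ (card_trip G))) _
    _ = 12 * l * G.card + 4 * ∑ τ ∈ T, w τ * (broken G τ).card := by ring

end Pool.Agent.H838R3.TuranRefl
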