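import Pool.Agent.H838R3.TuranRefl

/-!
# Covering 3-graphs with involutive automorphisms: special cases
-/

set_option autoImplicit false

open Finset

namespace Pool.Agent.H838R3.TuranRefl

variable {V : Type} [Fintype V] [DecidableEq V]

theorem sum_support (T : Finset (Equiv.Perm V)) (l : ℕ)
    (hl : ∀ x y : V, x ≠ y → (T.filter fun τ => τ x = y).card = l) :
    ∑ τ ∈ T, τ.support.card = l * (Fintype.card V * (Fintype.card V - 1)) := by
  classical
  have h1 : ∀ τ ∈ T, τ.support.card = ∑ x : V, if τ x ≠ x then 1 else 0 := by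
    intro τ _
    rw [← card_filter]
    rfl
  rw [sum_congr rfl h1, sum_comm]
  have h2 : ∀ x : V, (∑ τ ∈ T, if τ x ≠ x then 1 else 0) = (Fintype.card V - 1) * l := by
    intro x
    rw [← card_filter]
    rw [card_eq_sum_card_fiberwise (f := fun τ : Equiv.Perm V => τ x) (t := univ.erase x)]
    · rw [sum_congr rfl (g := fun _ => l)]
      · rw [sum_const, card_erase_of_mem (mem_univ x), card_univ, smul_eq_mul]
      · intro y hy
        rw [← hl x y (ne_of_mem_erase hy).symm]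
        congr 1
        ext τ
        simp only [mem_filter]
        constructor
        · rintro ⟨⟨h, _⟩, h'⟩
          exact ⟨h, h'⟩
        · rintro ⟨h, h'⟩
          refine ⟨⟨h, ?_⟩, h'⟩
          rw [h']
          exact ne_of_mem_erase hy
    · intro τ hτ
      simp only [coe_filter, Set.mem_ofPred_eq] at hτ
      simp only [coe_erase, coe_univ, Set.mem_sdiff, Set.mem_univ, Set.mem_singleton_iff, true_and]
      exact hτ.2
  rw [sum_congr rfl (fun x _ => h2 x), sum_const, card_univ, smul_eq_mul]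
  ring

theorem sharp {G : Finset (Finset V)}
    (hcov : ∀ S : Finset V, S.card = 4 → ∃ e ∈ G, e ⊆ S) (h3 : ∀ e ∈ G, e.card = 3)
    (T : Finset (Equiv.Perm V)) (hT : ∀ τ ∈ T, τ * τ = 1)
    (hl : ∀ x y : V, x ≠ y → (T.filter fun τ => τ x = y).card = 1)
    (hn : T.card ≤ Fintype.card V) :
    Fintype.card V * (Fintype.card V - 1) * (Fintype.card V - 3) ≤
      12 * G.card + 4 * ∑ τ ∈ T, (broken G τ).card := by
  classical
  have hg := general hcov h3 T hT (fun _ => 1) 1 (fun x y h => by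
    rw [sum_const, smul_eq_mul, mul_one]; exact (hl x y h).le)
  simp only [one_mul] at hg
  set B := ∑ τ ∈ T, (broken G τ).card with hB
  have hs := sum_support T 1 hl
  rw [one_mul] at hs
  have hcs := sq_sum_le_card_mul_sum_sq (s := T) (f := fun τ => (τ.support.card : ℤ))
  set n := Fintype.card V with hndef
  rcases Nat.lt_or_ge n 3 with hn3 | hn3
  · have : n - 3 = 0 := by omega
    rw [this]; simp
  obtain ⟨k, hk⟩ : ∃ k, n = k + 3 := ⟨n - 3, by omega⟩
  have e1 : n - 1 = k + 2 := by omega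
  have e2 : n - 3 = k := by omega
  rw [e1] at hs ⊢
  rw [e2, hk]
  rw [hk] at hs hn
  have hs' : (∑ τ ∈ T, (τ.support.card : ℤ)) = (k + 3) * (k + 2) := by exact_mod_cast hs
  have hg' : (∑ τ ∈ T, (τ.support.card : ℤ) * ((τ.support.card : ℤ) - 2)) ≤
      12 * G.card + 4 * B := by
    have h1 : ((∑ τ ∈ T, τ.support.card * (τ.support.card - 2) : ℕ) : ℤ) ≤
        ((12 * 1 * G.card + 4 * B : ℕ) : ℤ) := by exact_mod_cast hg
    refine le_trans ?_ (h1.trans (by push_cast; linarith))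
    rw [Nat.cast_sum]
    apply sum_le_sum
    intro τ _
    rw [Nat.cast_mul]
    exact mul_le_mul_of_nonneg_left (by omega) (Int.natCast_nonneg _)
  have hexp : (∑ τ ∈ T, (τ.support.card : ℤ) * ((τ.support.card : ℤ) - 2)) =
      (∑ τ ∈ T, (τ.support.card : ℤ) ^ 2) - 2 * ∑ τ ∈ T, (τ.support.card : ℤ) := by
    rw [mul_sum, ← sum_sub_distrib]
    apply sum_congr rfl
    intro τ _
    ring
  rw [hexp, hs'] at hg'
  rw [hs'] at hcs
  have hpos : 0 ≤ ∑ τ ∈ T, (τ.support.card : ℤ) ^ 2 := sum_nonneg fun _ _ => sq_nonneg _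
  have hTn : (T.card : ℤ) ≤ k + 3 := by exact_mod_cast hn
  have hk0 : (0 : ℤ) ≤ k := by positivity
  have h4 : ((k : ℤ) + 3) * (k + 2) ^ 2 ≤ ∑ τ ∈ T, (τ.support.card : ℤ) ^ 2 := by
    have : ((k : ℤ) + 3) * (((k : ℤ) + 3) * (k + 2) ^ 2) ≤
        (k + 3) * ∑ τ ∈ T, (τ.support.card : ℤ) ^ 2 := by
      calc ((k : ℤ) + 3) * (((k : ℤ) + 3) * (k + 2) ^ 2) = (((k : ℤ) + 3) * (k + 2)) ^ 2 := by ring
        _ ≤ T.card * ∑ τ ∈ T, (τ.support.card : ℤ) ^ 2 := hcs
        _ ≤ (k + 3) * ∑ τ ∈ T, (τ.support.card : ℤ) ^ 2 := mul_le_mul_of_nonneg_right hTn hpos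
    exact le_of_mul_le_mul_left this (by linarith)
  have h5 : ((k : ℤ) + 3) * (k + 2) * k ≤ 12 * G.card + 4 * B := by nlinarith
  exact_mod_cast h5

theorem homog {G : Finset (Finset V)}
    (hcov : ∀ S : Finset V, S.card = 4 → ∃ e ∈ G, e ⊆ S) (h3 : ∀ e ∈ G, e.card = 3)
    (Γ : Subgroup (Equiv.Perm V)) (hG : ∀ g ∈ Γ, ∀ e ∈ G, e.image g ∈ G)
    (h2 : ∀ x y x' y' : V, x ≠ y → x' ≠ y' →
      ∃ g ∈ Γ, (g x = x' ∧ g y = y') ∨ (g x = y' ∧ g y = x'))
    (t : Equiv.Perm V) (htΓ : t ∈ Γ) (ht : t * t = 1) :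
    Fintype.card V * (Fintype.card V - 1) * (t.support.card - 2) ≤ 12 * G.card := by
  classical
  rcases Nat.lt_or_ge (Fintype.card V) 2 with hn | hn
  · have : Fintype.card V - 1 = 0 := by omega
    rw [this]; simp
  obtain ⟨x0, y0, hxy0⟩ := Fintype.exists_pair_of_one_lt_card (α := V) (by omega)
  set T : Finset (Equiv.Perm V) := univ.filter fun τ => ∃ g ∈ Γ, τ = g * t * g⁻¹ with hTdef
  have hmem : ∀ τ, τ ∈ T ↔ ∃ g ∈ Γ, τ = g * t * g⁻¹ := by
    intro τ; simp [hTdef]
  have hT : ∀ τ ∈ T, τ * τ = 1 := by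
    intro τ hτ
    obtain ⟨g, _, rfl⟩ := (hmem τ).1 hτ
    calc g * t * g⁻¹ * (g * t * g⁻¹) = g * (t * t) * g⁻¹ := by group
      _ = 1 := by rw [ht]; group
  have hTG : ∀ τ ∈ T, ∀ e ∈ G, e.image τ ∈ G := by
    intro τ hτ
    obtain ⟨g, hg, rfl⟩ := (hmem τ).1 hτ
    exact hG _ (Γ.mul_mem (Γ.mul_mem hg htΓ) (Γ.inv_mem hg))
  have hsupp : ∀ τ ∈ T, τ.support.card = t.support.card := by
    intro τ hτ
    obtain ⟨g, _, rfl⟩ := (hmem τ).1 hτ
    exact Equiv.Perm.card_support_conj
  have hle : ∀ x y x' y' : V, x ≠ y → x' ≠ y' →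
      (T.filter fun τ => τ x = y).card ≤ (T.filter fun τ => τ x' = y').card := by
    intro x y x' y' h h'
    obtain ⟨g, hg, hgx⟩ := h2 x y x' y' h h'
    apply card_le_card_of_injOn (fun τ => g * τ * g⁻¹)
    · intro τ hτ
      simp only [coe_filter, Set.mem_ofPred_eq] at hτ ⊢
      obtain ⟨hτ, hxy⟩ := hτ
      have hmem' : g * τ * g⁻¹ ∈ T := by
        obtain ⟨g', hg', rfl⟩ := (hmem τ).1 hτ
        rw [hmem]
        exact ⟨g * g', Γ.mul_mem hg hg', by group⟩
      refine ⟨hmem', ?_⟩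
      have hyx : τ y = x := by rw [← hxy, inv_apply (hT τ hτ)]
      rcases hgx with ⟨h5, h6⟩ | ⟨h5, h6⟩
      · rw [← h5, ← h6]
        show g (τ (g⁻¹ (g x))) = g y
        rw [show g⁻¹ (g x) = x by simp, hxy]
      · rw [← h5, ← h6]
        show g (τ (g⁻¹ (g y))) = g x
        rw [show g⁻¹ (g y) = y by simp, hyx]
    · intro a _ b _ hab
      simpa using hab
  set l := (T.filter fun τ => τ x0 = y0).card with hldef
  have hl : ∀ x y : V, x ≠ y → (T.filter fun τ => τ x = y).card = l := fun x y h =>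
    le_antisymm (hle x y x0 y0 h hxy0) (hle x0 y0 x y hxy0 h)
  have hbr : ∀ τ ∈ T, broken G τ = ∅ := by
    intro τ hτ
    rw [broken, filter_eq_empty_iff]
    rintro e he ⟨h, -⟩
    exact h (hTG τ hτ e he)
  have hg := general hcov h3 T hT (fun _ => 1) l (fun x y h => by
    rw [sum_const, smul_eq_mul, mul_one]; exact (hl x y h).le)
  simp only [one_mul] at hg
  rw [sum_eq_zero (s := T) (f := fun τ => (broken G τ).card) (fun τ hτ => by
    simp only [hbr τ hτ, card_empty]), mul_zero, add_zero] at hg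
  have hs := sum_support T l hl
  rw [sum_congr rfl hsupp, sum_const, smul_eq_mul] at hs
  rw [sum_congr rfl (g := fun _ => t.support.card * (t.support.card - 2))
    (fun τ hτ => by rw [hsupp τ hτ]), sum_const, smul_eq_mul] at hg
  rcases Nat.eq_zero_or_pos l with h0 | hpos
  · rw [h0, zero_mul] at hs
    have hTpos : 0 < T.card := by
      rw [card_pos]
      exact ⟨t, (hmem t).2 ⟨1, Γ.one_mem, by simp⟩⟩
    have : t.support.card = 0 := by
      rcases Nat.mul_eq_zero.1 hs with h | h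
      · omega
      · exact h
    rw [this]; simp
  · have : l * (Fintype.card V * (Fintype.card V - 1) * (t.support.card - 2)) ≤
        l * (12 * G.card) := by
      calc l * (Fintype.card V * (Fintype.card V - 1) * (t.support.card - 2))
          = l * (Fintype.card V * (Fintype.card V - 1)) * (t.support.card - 2) := by ring
        _ = T.card * (t.support.card * (t.support.card - 2)) := by rw [← hs]; ring
        _ ≤ 12 * l * G.card := hg
        _ = l * (12 * G.card) := by ring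
    exact Nat.le_of_mul_le_mul_left this hpos

/-- Turan's number of edges: `k(k-1)(2k-1)`, `k²(2k-1)`, `k²(2k+1)` for `n = 3k, 3k+1, 3k+2`. -/
def turan (n : ℕ) : ℕ :=
  if n % 3 = 0 then (n / 3) * (n / 3 - 1) * (2 * (n / 3) - 1)
  else if n % 3 = 1 then (n / 3) ^ 2 * (2 * (n / 3) - 1)
  else (n / 3) ^ 2 * (2 * (n / 3) + 1)

theorem turan_le (n : ℕ) : 12 * turan n ≤ n * (n - 1) * (n - 3) := by
  unfold turan
  obtain ⟨k, hk⟩ : ∃ k, n / 3 = k := ⟨_, rfl⟩
  rw [hk]
  split_ifs with h1 h2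
  · obtain rfl : n = 3 * k := by omega
    rcases k with _ | k
    · simp
    · have e1 : k + 1 - 1 = k := by omega
      have e2 : 2 * (k + 1) - 1 = 2 * k + 1 := by omega
      have e3 : 3 * (k + 1) - 1 = 3 * k + 2 := by omega
      have e4 : 3 * (k + 1) - 3 = 3 * k := by omega
      rw [e1, e2, e3, e4]
      nlinarith [Nat.zero_le k, mul_nonneg (Nat.zero_le k) (Nat.zero_le k),
        mul_nonneg (mul_nonneg (Nat.zero_le k) (Nat.zero_le k)) (Nat.zero_le k)]
  · obtain rfl : n = 3 * k + 1 := by omega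
    rcases k with _ | k
    · simp
    · have e2 : 2 * (k + 1) - 1 = 2 * k + 1 := by omega
      have e3 : 3 * (k + 1) + 1 - 1 = 3 * k + 3 := by omega
      have e4 : 3 * (k + 1) + 1 - 3 = 3 * k + 1 := by omega
      rw [e2, e3, e4]
      nlinarith [Nat.zero_le k, mul_nonneg (Nat.zero_le k) (Nat.zero_le k),
        mul_nonneg (mul_nonneg (Nat.zero_le k) (Nat.zero_le k)) (Nat.zero_le k)]
  · obtain rfl : n = 3 * k + 2 := by omega
    rcases k with _ | k
    · simp
    · have e3 : 3 * (k + 1) + 2 - 1 = 3 * k + 4 := by omega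
      have e4 : 3 * (k + 1) + 2 - 3 = 3 * k + 2 := by omega
      rw [e3, e4]
      nlinarith [Nat.zero_le k, mul_nonneg (Nat.zero_le k) (Nat.zero_le k),
        mul_nonneg (mul_nonneg (Nat.zero_le k) (Nat.zero_le k)) (Nat.zero_le k)]

theorem turan_le' (n B g : ℕ) (h : n * (n - 1) * (n - 3) ≤ 12 * g + 4 * B)
    (hB : 36 * B + 21 * n ≤ n ^ 3) : turan n ≤ g := by
  unfold turan
  obtain ⟨k, hk⟩ : ∃ k, n / 3 = k := ⟨_, rfl⟩
  rw [hk]
  split_ifs with h1 h2
  · obtain rfl : n = 3 * k := by omega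
    rcases k with _ | k
    · simp
    · have e1 : k + 1 - 1 = k := by omega
      have e2 : 2 * (k + 1) - 1 = 2 * k + 1 := by omega
      have e3 : 3 * (k + 1) - 1 = 3 * k + 2 := by omega
      have e4 : 3 * (k + 1) - 3 = 3 * k := by omega
      rw [e3, e4] at h
      rw [e1, e2]
      nlinarith
  · obtain rfl : n = 3 * k + 1 := by omega
    rcases k with _ | k
    · simp
    · have e2 : 2 * (k + 1) - 1 = 2 * k + 1 := by omega
      have e3 : 3 * (k + 1) + 1 - 1 = 3 * k + 3 := by omega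
      have e4 : 3 * (k + 1) + 1 - 3 = 3 * k + 1 := by omega
      rw [e3, e4] at h
      rw [e2]
      nlinarith
  · obtain rfl : n = 3 * k + 2 := by omega
    rcases k with _ | k
    · simp
    · have e3 : 3 * (k + 1) + 2 - 1 = 3 * k + 4 := by omega
      have e4 : 3 * (k + 1) + 2 - 3 = 3 * k + 2 := by omega
      rw [e3, e4] at h
      nlinarith

theorem abelian {A : Type} [AddCommGroup A] [Fintype A] [DecidableEq A] {G : Finset (Finset A)}
    (hcov : ∀ S : Finset A, S.card = 4 → ∃ e ∈ G, e ⊆ S) (h3 : ∀ e ∈ G, e.card = 3) :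
    Fintype.card A * (Fintype.card A - 1) * (Fintype.card A - 3) ≤
      12 * G.card + 4 * ∑ c : A, (broken G (Equiv.subLeft c)).card := by
  classical
  have hinj : ∀ c ∈ (univ : Finset A), ∀ d ∈ (univ : Finset A),
      Equiv.subLeft c = Equiv.subLeft d → c = d := by
    intro c _ d _ h
    have := congrArg (fun f : A ≃ A => f 0) h
    simpa using this
  have := sharp hcov h3 (univ.image fun c : A => Equiv.subLeft c) ?_ ?_ ?_
  · rwa [sum_image hinj] at this
  · intro τ hτ
    obtain ⟨c, _, rfl⟩ := mem_image.1 hτ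
    ext s
    simp
  · intro x y _
    rw [card_eq_one]
    refine ⟨Equiv.subLeft (x + y), ?_⟩
    ext τ
    simp only [mem_filter, mem_image, mem_univ, true_and, mem_singleton]
    constructor
    · rintro ⟨⟨c, rfl⟩, h⟩
      have : c = x + y := by
        rw [← h]; simp
      rw [this]
    · rintro rfl
      exact ⟨⟨_, rfl⟩, by simp⟩
  · exact card_image_le.trans (by rw [card_univ])

end Pool.Agent.H838R3.TuranRefl
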